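import Pool.Agent.Helper52.ES.Spec2
import Pool.Agent.Helper53.CL.Bridge
import Pool.Agent.Helper58.PolyBridge

set_option autoImplicit false

/-! # Module LINK: polynomial time in the two settings -/

namespace Pool.Agent.Helper52.ES

open Pool.Agent.Helper58 Function

theorem code_eq_wr {α : Type} [Poly.Enc α] [EncI α] (a : α) :
    Poly.code a = (enc (⟨a⟩ : Wr α)).code :=
  (Helper99.ETSP.code_conv (Poly.enc a)).symm

theorem code_injective {α : Type} [Poly.Enc α] [EncI α] :
    Injective (Poly.code : α → List Bool) := by
  intro a b h
  exact EncI.inj (Helper53.CL.tcode_inj' h)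

theorem link : specLINK := by
  intro α β _ _ _ _ f
  constructor
  · intro h
    have h1 : PTf (fun x : Coded (Poly.code : α → List Bool) code_injective =>
        Poly.code (f x.val)) :=
      ptf_of_polyTime (A := Bool) (B := Bool) Poly.code Poly.code code_injective h
    have h2 : PTf (fun x : Wr α => (enc x).code) := PTf.code PTf.id
    have h3 : PTf (fun x : Wr α =>
        (⟨x.val⟩ : Coded (Poly.code : α → List Bool) code_injective)) := by
      refine h2.recode (i := fun c => c) (fun _ => rfl) (fun x => ?_)
      show enc (Poly.code x.val) = enc ((enc x).code)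
      rw [code_eq_wr]
    have h4 := PTf.comp (g := fun x : Coded (Poly.code : α → List Bool) code_injective =>
      Poly.code (f x.val)) h1 h3
    refine PTf.of_code (h4.congr (fun x => ?_))
    rw [← code_eq_wr]
  · intro h
    exact PTf.polyTime (Poly.code : α → List Bool) (Poly.code : β → List Bool) f (fun b => b) [] h
      (fun a => (⟨a⟩ : Wr α)) (fun a => by rw [List.map_id', List.nil_append, code_eq_wr])
      (fun a => code_eq_wr (f a))

end Pool.Agent.Helper52.ES
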