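import Pool.Agent.Helper52.ES.Spec

set_option autoImplicit false

/-! # Module FK: the discs of an arm -/

namespace Pool.Agent.Helper52.ES

theorem FK_r2 {p : Par} {W : ℕ} (h : p.Ok W) {i c : ℕ} (hi : i < p.rows) (_ : c < 4) :
    2 ≤ p.r2 i c ∧ p.r2 i c ≤ 3 * p.A i := by
  have CA := h.CA i hi
  have CR := h.CR i hi
  have low := h.low i hi
  have high := h.high i hi
  have big := h.big i hi
  have hRA : p.R i ≤ p.A i + p.C i := by nlinarith
  have hRA2 : p.C i + 2 ≤ p.R i := by
    by_contra hcon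
    have h1 : p.R i + 2 ≤ p.C i + 3 := by omega
    have h2 : (p.R i + 2) ^ 2 ≤ (p.C i + 3) ^ 2 := Nat.pow_le_pow_left h1 2
    nlinarith
  unfold Par.r2
  split_ifs <;> omega

theorem FK_u {p : Par} {W : ℕ} (h : p.Ok W) {i c : ℕ} (hi : i < p.rows) (hc : c < 4) :
    8 * p.r2 i c ≤ 3 * 2 ^ p.e := by
  have h1 := (FK_r2 h hi hc).2
  have h2 := h.sml i hi
  unfold Par.u at h2
  omega

theorem fk : specFK := by
  intro p W h
  refine ⟨?_, ?_, ?_, ?_⟩
  · intro i hi c hc
    have := (FK_r2 h hi hc).1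
    omega
  · intro i hi c hc
    have h1 := FK_r2 h hi hc
    have h2 := FK_u h hi hc
    unfold Par.fk
    rw [Nat.log_lt_iff_lt_pow (by omega) (by omega)]
    omega
  · intro i hi c hc k
    have h1 := FK_r2 h hi hc
    unfold Par.cn Par.fk
    rw [decide_eq_true_iff, ← Nat.lt_succ_iff, Nat.succ_eq_add_one,
      Nat.log_lt_iff_lt_pow (by omega) (by omega)]
    omega
  · intro i hi c hc k
    have h1 := FK_r2 h hi hc
    unfold Par.fst' Par.fk
    rw [decide_eq_true_iff, Nat.le_log_iff_pow_le (by omega) (by omega)]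
    omega

end Pool.Agent.Helper52.ES
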