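import Pool.Agent.Helper52.Grid.Defs
import Pool.Agent.Helper52.ETSP.Defs

set_option autoImplicit false

/-! # Completeness of EXACT EUCLIDEAN TSP: the exact gadget

A formula with variables `i < 2 M + 1` is drawn as the lattice graph `hC`, `vC` (left of the column
`K0`), exactly and axis-parallel, in the unit `v = 2 ^ e`; row `i` ends at the hub `(K0, 7 + 6 i)`,
which is replaced by a ring of four vertices `s1` (`c = 0`, arm upwards), `s2` (`c = 1`, arm to the
left), `s3` (`c = 2`, arm downwards), `w` (`c = 3`, arm to the right) of diameter about `A i`, reached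
by four geometric progressions of discs (`coin i c k`, at distance `2 ^ k`).  The ring edge `s2 s3`
is the vector `(A i, C i)`.  `x` grows to the right, `y` grows downwards. -/

namespace Pool.Agent.Helper52.ES

open Pool.Agent.Helper52.Grid
open Pool.Agent.Helper52.ETSP (edist)

/-- vertices: `(tag, _, _, _)` -/
abbrev Vx := ℕ × (ℕ × (ℕ × ℕ))

/-- lattice site -/
abbrev lat (x y : ℕ) : Vx := (0, x, y, 0)
/-- midpoint of the forced edge from `(x, y)` to `(x + 1, y)` -/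
abbrev hm (x y : ℕ) : Vx := (1, x, y, 0)
/-- midpoint of the forced edge from `(x, y)` to `(x, y + 1)` -/
abbrev vm (x y : ℕ) : Vx := (2, x, y, 0)
/-- vertex of the ring of row `i` -/
abbrev ring (i c : ℕ) : Vx := (3, i, c, 0)
/-- disc number `k` on the arm `c` of row `i` -/
abbrev coin (i c k : ℕ) : Vx := (4, i, c, k)

/-- parameters -/
structure Par where
  s : List Sub
  M : ℕ
  e : ℕ
  A : ℕ → ℕ
  C : ℕ → ℕ
  R : ℕ → ℕ

namespace Par

variable (p : Par)

/-- the unit -/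
def u : ℕ := 2 ^ p.e
/-- the column of the hubs -/
def K0 : ℕ := 5 + 4 * p.s.length
/-- the number of rows -/
def rows : ℕ := 2 * p.M + 1
/-- half of the vertical side of a ring -/
def H (i : ℕ) : ℕ := (p.R i + p.A i - p.C i) / 2

/-- costs of the horizontal lattice edges (0 = forced) -/
def h (x y : ℕ) : ℕ :=
  if x < p.K0 then hC p.s p.M x y
  else if x = p.K0 ∧ (y = 3 ∨ (4 ≤ y ∧ (y - 4) % 6 = 3 ∧ (y - 4) / 6 < p.rows)) then 0
  else 4

/-- costs of the vertical lattice edges -/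
def v (x y : ℕ) : ℕ :=
  if x < p.K0 then vC p.s p.M x y
  else if x = p.K0 then
    (if 4 ≤ y ∧ (y - 4) / 6 < p.rows ∧ 1 ≤ (y - 4) % 6 ∧ (y - 4) % 6 ≤ 4 then 0 else 4)
  else if x = p.K0 + 1 then
    (if 3 ≤ y ∧ (y - 1) / 6 % 2 = 0 ∧ (y - 1) / 6 ≤ 2 * p.M then 0 else 4)
  else 4

/-- the hubs -/
def hub (x y : ℕ) : Bool :=
  decide (x = p.K0 ∧ 4 ≤ y ∧ (y - 4) % 6 = 3 ∧ (y - 4) / 6 < p.rows)

/-- number of forced edges at a lattice site -/
def fd (x y : ℕ) : ℕ :=
  (if p.h x y = 0 then 1 else 0) + (if 0 < x ∧ p.h (x - 1) y = 0 then 1 else 0) +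
    (if p.v x y = 0 then 1 else 0) + (if 0 < y ∧ p.v x (y - 1) = 0 then 1 else 0)

/-- the vertex at the end of a half edge at the site `(x, y)`, in the direction `c` (0 = up,
1 = left, 2 = down, 3 = right) -/
def st (x y c : ℕ) : Vx := if p.hub x y then coin ((y - 4) / 6) c (p.e + 2) else lat x y

/-- the left ring of a row -/
def lring (x y : ℕ) : Bool := decide ((x = 3 ∨ x = 4) ∧ 4 ≤ y ∧ ((y - 4) % 6 = 3 ∨ (y - 4) % 6 = 4))

/-- horizontal coordinate of a column -/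
def X (x : ℕ) : ℕ := 16 * p.u * x + (if x ≤ 3 then 2 * p.u else 0)
/-- vertical coordinate of a line -/
def Y (y : ℕ) : ℕ := 14 * p.u * y - (if y ≤ 2 then 2 * p.u else 0)

/-- horizontal coordinate of a vertex -/
def px (a : Vx) : ℕ :=
  if a.1 = 0 then p.X a.2.1 + (if a.2.1 = p.K0 ∧ 4 ≤ a.2.2.1 ∧ 4 ≤ (a.2.2.1 - 4) % 6 then
    p.A ((a.2.2.1 - 4) / 6) else 0)
  else if a.1 = 1 then p.X a.2.1 + (if a.2.1 = 3 then 7 * p.u else 8 * p.u)
  else if a.1 = 2 then p.X a.2.1 + (if a.2.1 = p.K0 ∧ 4 ≤ a.2.2.1 ∧ 3 ≤ (a.2.2.1 - 4) % 6 then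
    p.A ((a.2.2.1 - 4) / 6) else 0)
  else if a.1 = 3 then p.X p.K0 + (if 2 ≤ a.2.2.1 then p.A a.2.1 else 0)
  else if a.2.2.1 = 0 then p.X p.K0
  else if a.2.2.1 = 1 then p.X p.K0 - 2 ^ a.2.2.2
  else if a.2.2.1 = 2 then p.X p.K0 + p.A a.2.1
  else p.X p.K0 + p.A a.2.1 + 2 ^ a.2.2.2

/-- vertical coordinate of a vertex -/
def py (a : Vx) : ℕ :=
  if a.1 = 0 then p.Y a.2.2.1 - (if a.2.1 = p.K0 + 1 ∧ 4 ≤ a.2.2.1 ∧ (a.2.2.1 - 4) % 6 = 3 then
    p.H ((a.2.2.1 - 4) / 6) else 0)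
  else if a.1 = 1 then p.Y a.2.2.1 - (if a.2.1 = p.K0 ∧ 4 ≤ a.2.2.1 then
    p.H ((a.2.2.1 - 4) / 6) else 0)
  else if a.1 = 2 then p.Y a.2.2.1 + 7 * p.u
  else if a.1 = 3 then
    (if a.2.2.1 = 1 then p.Y (7 + 6 * a.2.1) else if a.2.2.1 = 2 then p.Y (7 + 6 * a.2.1) + p.C a.2.1
    else p.Y (7 + 6 * a.2.1) - p.H a.2.1)
  else if a.2.2.1 = 0 then p.Y (7 + 6 * a.2.1) - p.H a.2.1 - 2 ^ a.2.2.2
  else if a.2.2.1 = 1 then p.Y (7 + 6 * a.2.1)
  else if a.2.2.1 = 2 then p.Y (7 + 6 * a.2.1) + p.C a.2.1 + 2 ^ a.2.2.2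
  else p.Y (7 + 6 * a.2.1) - p.H a.2.1

/-- the position of a vertex -/
def pos (a : Vx) : ℤ × ℤ := ((p.px a : ℤ), (p.py a : ℤ))

/-- twice the radius of a ring vertex -/
def r2 (i c : ℕ) : ℕ :=
  if c = 1 then p.R i - p.C i else if c = 2 then p.R i + p.C i else p.A i

/-- the disc `k` on the arm `c` of row `i` exists -/
def cn (i c k : ℕ) : Bool := decide (5 * p.r2 i c < 6 * 2 ^ (k + 1))

/-- the disc `k` on the arm `c` of row `i` is not before the first one -/
def fst' (i c k : ℕ) : Bool := decide (6 * 2 ^ k ≤ 5 * p.r2 i c)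

/-- radii -/
noncomputable def rad (a : Vx) : ℝ :=
  if a.1 = 0 then
    (if p.fd a.2.1 a.2.2.1 = 1 then
      (if lring a.2.1 a.2.2.1 then 7 * (p.u : ℝ)
      else if a.2.2.1 = 2 ∨ a.2.2.1 % 2 = 1 then 8 * (p.u : ℝ) else 6 * (p.u : ℝ))
    else if a.2.1 = p.K0 ∧ 4 ≤ a.2.2.1 ∧ (a.2.2.1 - 4) % 6 = 5 then 5 * (p.u : ℝ)
    else 4 * (p.u : ℝ))
  else if a.1 = 1 ∨ a.1 = 2 then 4 * (p.u : ℝ)
  else if a.1 = 3 then (p.r2 a.2.1 a.2.2.1 : ℝ) / 2
  else if p.fst' a.2.1 a.2.2.1 a.2.2.2 then 2 / 5 * 2 ^ a.2.2.2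
  else 7 / 20 * 2 ^ a.2.2.2

/-- the part of a site in the list of vertices -/
def vcell (x y : ℕ) : List Vx :=
  (if 0 < p.fd x y ∧ p.hub x y = false then [lat x y] else []) ++
    ((if p.h x y = 0 then [hm x y] else []) ++ (if p.v x y = 0 then [vm x y] else []))

/-- the part of an arm in the list of vertices -/
def varm (i c : ℕ) : List Vx :=
  ring i c :: (((List.range (p.e + 3)).filter fun k => p.cn i c k).map fun k => coin i c k)

/-- the list of all vertices -/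
def V : List Vx :=
  ((List.range (p.K0 + 2)).flatMap fun x => (List.range (6 * p.rows + 5)).flatMap fun y =>
    p.vcell x y) ++
  ((List.range p.rows).flatMap fun i => (List.range 4).flatMap fun c => p.varm i c)

/-- the part of a site in the list of forced pairs -/
def fcell (x y : ℕ) : List (Vx × Vx) :=
  (if p.h x y = 0 then [(p.st x y 3, hm x y), (hm x y, p.st (x + 1) y 1)] else []) ++
    (if p.v x y = 0 then [(p.st x y 2, vm x y), (vm x y, p.st x (y + 1) 0)] else [])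

/-- the part of an arm in the list of forced pairs -/
def farm (i c : ℕ) : List (Vx × Vx) :=
  ((List.range (p.e + 3)).filter fun k => p.cn i c k).map fun k =>
    (if p.fst' i c k then ring i c else coin i c (k - 1), coin i c k)

/-- the list of the forced pairs -/
def FL : List (Vx × Vx) :=
  ((List.range (p.K0 + 2)).flatMap fun x => (List.range (6 * p.rows + 5)).flatMap fun y =>
    p.fcell x y) ++
  ((List.range p.rows).flatMap fun i => (List.range 4).flatMap fun c => p.farm i c)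

/-- the optional pairs, in one direction -/
inductive O1 : Vx → Vx → Prop
  | hor (x y : ℕ) : x < p.K0 → p.h x y = 2 → O1 (lat x y) (lat (x + 1) y)
  | ver (x y : ℕ) : x < p.K0 → p.v x y = 2 → O1 (lat x y) (lat x (y + 1))
  | rin (i c : ℕ) : i < p.rows → c < 4 → O1 (ring i c) (ring i ((c + 1) % 4))

/-- the optional pairs -/
def O (a b : Vx) : Prop := p.O1 a b ∨ p.O1 b a

/-- the forced pairs -/
def F (a b : Vx) : Prop := (a, b) ∈ p.FL ∨ (b, a) ∈ p.FL

/-- horizontal plus vertical distance -/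
def l1 (a b : Vx) : ℕ :=
  (p.px a - p.px b) + (p.px b - p.px a) + ((p.py a - p.py b) + (p.py b - p.py a))

/-- radius of a vertex with one forced edge (for a ring: `A`, `R`, `0`, `0` instead of the radii
`A / 2`, `(R - C) / 2`, `(R + C) / 2`, `A / 2`), `0` for the others -/
def one (a : Vx) : ℕ :=
  if a.1 = 0 then
    (if p.fd a.2.1 a.2.2.1 = 1 then
      (if lring a.2.1 a.2.2.1 then 7 * p.u
      else if a.2.2.1 = 2 ∨ a.2.2.1 % 2 = 1 then 8 * p.u else 6 * p.u)
    else 0)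
  else if a.1 = 3 then
    (if a.2.2.1 = 0 then p.A a.2.1 else if a.2.2.1 = 1 then p.R a.2.1 else 0)
  else 0

/-- the exact length of the good tours which use no edge `s2 s3` -/
def Lam : ℕ := (p.FL.map fun q => p.l1 q.1 q.2).sum + (p.V.map p.one).sum

/-- the excess of the ring edge `s2 s3` of row `i` -/
noncomputable def om (i : ℕ) : ℝ := Real.sqrt ((p.A i : ℝ) ^ 2 + (p.C i : ℝ) ^ 2) - p.R i

/-- Conditions on the parameters, for the total slack `W`. -/
structure Ok (W : ℕ) : Prop where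
  sub : ∀ k i d, sg p.s k = some (i, d) → i < p.rows
  zero : 0 < p.s.length → sg p.s 0 = none
  CA : ∀ i < p.rows, p.C i ≤ p.A i
  CR : ∀ i < p.rows, p.C i ≤ p.R i
  par : ∀ i < p.rows, 2 * p.H i = p.R i + p.A i - p.C i
  low : ∀ i < p.rows, p.R i ^ 2 ≤ p.A i ^ 2 + p.C i ^ 2
  high : ∀ i < p.rows, p.A i ^ 2 + p.C i ^ 2 ≤ (p.R i + 2) ^ 2
  big : ∀ i < p.rows, 100 * (W + 2) ≤ p.A i
  sml : ∀ i < p.rows, 8 * p.A i ≤ p.u

end Par

end Pool.Agent.Helper52.ES
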