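import Pool.Agent.Helper52.ES.Class
import Pool.Agent.Helper52.ES.Defs
import Pool.Agent.Helper52.Grid.ReducePT

set_option autoImplicit false

/-! # Statements of the modules about polynomial time -/

namespace Pool.Agent.Helper52.ES

open Pool.Agent.Helper58 Function
open Pool.Agent.Helper52.Grid (Sub CNF subs)
open Pool.Agent.Helper52.ETSP (nrm Instance)
open Pool.Agent.Helper99.ETSP (conv raw)

/-! ### types with the tree encoding of `Helper52.Poly` -/

theorem conv_inj : Injective conv := by
  intro a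
  induction a with
  | leaf =>
    intro b h
    cases b with
    | leaf => rfl
    | node b c => exact absurd h (by rintro ⟨⟩)
  | node a b iha ihb =>
    intro c h
    cases c with
    | leaf => exact absurd h (by rintro ⟨⟩)
    | node c d =>
      simp only [conv, DTree.cons.injEq] at h
      rw [iha h.1, ihb h.2]

/-- types whose tree encoding is injective -/
class EncI (α : Type) [Poly.Enc α] : Prop where
  inj : Injective (Poly.enc : α → Poly.T)

instance : EncI Bool := ⟨by
  intro a b h
  have : conv (Poly.enc a) = conv (Poly.enc b) := by rw [h]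
  rw [Helper99.ETSP.conv_bool, Helper99.ETSP.conv_bool] at this
  exact Enc.inj this⟩

instance {α β : Type} [Poly.Enc α] [EncI α] [Poly.Enc β] [EncI β] : EncI (α × β) := ⟨by
  rintro ⟨a, b⟩ ⟨c, d⟩ h
  have h' : Poly.T.node (Poly.enc a) (Poly.enc b) = Poly.T.node (Poly.enc c) (Poly.enc d) := h
  rw [Poly.T.node.injEq] at h'
  rw [EncI.inj h'.1, EncI.inj h'.2]⟩

instance {α : Type} [Poly.Enc α] [EncI α] : EncI (List α) := ⟨by
  intro l
  induction l with
  | nil =>
    intro m h
    cases m with
    | nil => rfl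
    | cons b m => exact absurd h (by rintro ⟨⟩)
  | cons a l ih =>
    intro m h
    cases m with
    | nil => exact absurd h (by rintro ⟨⟩)
    | cons b m =>
      have h' : Poly.T.node (Poly.enc a) (Poly.enc l) = Poly.T.node (Poly.enc b) (Poly.enc m) := h
      rw [Poly.T.node.injEq] at h'
      rw [EncI.inj h'.1, ih h'.2]⟩

instance : EncI ℕ := ⟨by
  intro a b h
  have h' : a.bits = b.bits := (inferInstance : EncI (List Bool)).inj h
  exact bits_inj h'⟩

instance : EncI Instance := ⟨fun I J h => Helper99.ETSP.code_inj (by unfold Poly.code; rw [h])⟩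

/-- the elements of `α`, with the tree encoding `Poly.enc` (binary natural numbers for `α = ℕ`) -/
structure Wr (α : Type) where
  /-- the element -/
  val : α

instance {α : Type} [Poly.Enc α] [EncI α] : Enc (Wr α) where
  enc x := conv (Poly.enc x.val)
  inj := by
    rintro ⟨a⟩ ⟨b⟩ h
    have h' : Poly.enc a = Poly.enc b := conv_inj h
    rw [EncI.inj h']

/-- (LINK) polynomial-time functions in the two settings -/
def specLINK : Prop := ∀ (α β : Type) [Poly.Enc α] [Poly.Enc β] [EncI α] [EncI β] (f : α → β),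
  PolyTime f ↔ PTf (fun x : Wr α => (⟨f x.val⟩ : Wr β))

theorem wr_pair {γ α β : Type} [Enc γ] [Poly.Enc α] [EncI α] [Poly.Enc β] [EncI β] (f : γ → α)
    (g : γ → β) : PTf (fun x => (⟨(f x, g x)⟩ : Wr (α × β))) ↔
      PTf (fun x => ((⟨f x⟩ : Wr α), (⟨g x⟩ : Wr β))) :=
  ⟨fun h => h.recode (i := fun c => c) (fun _ => rfl) (fun _ => rfl),
    fun h => h.recode (i := fun c => c) (fun _ => rfl) (fun _ => rfl)⟩

theorem enc_wr_list {α : Type} [Poly.Enc α] [EncI α] (l : List α) :
    enc (⟨l⟩ : Wr (List α)) = enc (l.map (fun a => (⟨a⟩ : Wr α))) := by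
  induction l with
  | nil => rfl
  | cons a l ih =>
    change DTree.cons (conv (Poly.enc a)) (conv (Poly.enc l)) =
      DTree.cons (conv (Poly.enc a)) (enc (l.map (fun a => (⟨a⟩ : Wr α))))
    rw [← ih]
    rfl

theorem wr_list {γ α : Type} [Enc γ] [Poly.Enc α] [EncI α] (l : γ → List α) :
    PTf (fun x => (⟨l x⟩ : Wr (List α))) ↔ PTf (fun x => (l x).map (fun a => (⟨a⟩ : Wr α))) :=
  ⟨fun h => h.recode (i := fun c => c) (fun _ => rfl) (fun x => (enc_wr_list (l x)).symm),
    fun h => h.recode (i := fun c => c) (fun _ => rfl) (fun x => enc_wr_list (l x))⟩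

theorem wr_bool {γ : Type} [Enc γ] (f : γ → Bool) :
    PTf (fun x => (⟨f x⟩ : Wr Bool)) ↔ PTf f :=
  ⟨fun h => h.recode (i := fun c => c) (fun _ => rfl)
      (fun x => (Helper99.ETSP.conv_bool (f x)).symm),
    fun h => h.recode (i := fun c => c) (fun _ => rfl) (fun x => Helper99.ETSP.conv_bool (f x))⟩

theorem wr_bits {γ : Type} [Enc γ] (f : γ → List Bool) :
    PTf (fun x => (⟨f x⟩ : Wr (List Bool))) ↔ PTf f := by
  have key : ∀ l : List Bool, enc (⟨l⟩ : Wr (List Bool)) = enc l := by
    intro l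
    have h := Helper99.ETSP.conv_list (fun b : Bool => b) Helper99.ETSP.conv_bool l
    rw [List.map_id'] at h
    exact h
  exact ⟨fun h => h.recode (i := fun c => c) (fun _ => rfl) (fun x => (key (f x)).symm),
    fun h => h.recode (i := fun c => c) (fun _ => rfl) (fun x => key (f x))⟩

/-- the code of a wrapped number is the list of its binary digits -/
theorem wr_nat_bits {γ : Type} [Enc γ] (f : γ → ℕ) :
    PTf (fun x => (⟨f x⟩ : Wr ℕ)) ↔ PTf (fun x => (f x).bits) :=
  ⟨fun h => h.recode (i := fun c => c) (fun _ => rfl)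
      (fun x => (Helper99.ETSP.conv_nat (f x)).symm),
    fun h => h.recode (i := fun c => c) (fun _ => rfl) (fun x => Helper99.ETSP.conv_nat (f x))⟩

/-- the code of a wrapped instance is the code of its raw data -/
theorem wr_raw {γ : Type} [Enc γ] (f : γ → Instance) :
    PTf (fun x => (⟨f x⟩ : Wr Instance)) ↔ PTf (fun x => raw (f x)) :=
  ⟨fun h => h.recode (i := fun c => c) (fun _ => rfl)
      (fun x => (Helper99.ETSP.conv_raw (f x)).symm),
    fun h => h.recode (i := fun c => c) (fun _ => rfl) (fun x => Helper99.ETSP.conv_raw (f x))⟩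

/-! ### binary arithmetic -/

/-- `f` is computable in polynomial time, in binary -/
abbrev PBin {γ : Type} [Enc γ] (f : γ → ℕ) : Prop := PTf (fun x => (⟨f x⟩ : Wr ℕ))

/-- (BN) arithmetic with binary numbers -/
structure BNS : Prop where
  un : ∀ (γ : Type) [Enc γ] (f : γ → ℕ), PTf f → PBin f
  two : ∀ (γ : Type) [Enc γ] (f : γ → ℕ), PTf f → PBin (fun x => 2 ^ f x)
  add : ∀ (γ : Type) [Enc γ] (f g : γ → ℕ), PBin f → PBin g → PBin (fun x => f x + g x)
  sub : ∀ (γ : Type) [Enc γ] (f g : γ → ℕ), PBin f → PBin g → PBin (fun x => f x - g x)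
  mul : ∀ (γ : Type) [Enc γ] (f g : γ → ℕ), PBin f → PBin g → PBin (fun x => f x * g x)
  half : ∀ (γ : Type) [Enc γ] (f : γ → ℕ), PBin f → PBin (fun x => f x / 2)
  sqrt : ∀ (γ : Type) [Enc γ] (f : γ → ℕ), PBin f → PBin (fun x => Nat.sqrt (f x))
  size : ∀ (γ : Type) [Enc γ] (f : γ → ℕ), PBin f → PTf (fun x => Nat.size (f x))
  le : ∀ (γ : Type) [Enc γ] (f g : γ → ℕ), PBin f → PBin g → PTf (fun x => decide (f x ≤ g x))
  sum : ∀ (γ : Type) [Enc γ] (l : γ → List (Wr ℕ)), PTf l →
    PBin (fun x => ((l x).map Wr.val).sum)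

def specBN : Prop := BNS

/-! ### Cook's theorem with visible certificates -/

/-- (CW) The certificates of length `m x` accepted by a polynomial-time verifier are the
beginnings of the satisfying assignments of a formula which is computable in polynomial time. -/
def specCW : Prop := ∀ (γ : Type) [Enc γ] (V : γ × List Bool → Bool) (m : γ → ℕ), PTf V → PTf m →
  ∃ φ : γ → CNF, PTf φ ∧ ∀ x (w : List Bool), w.length = m x →
    (V (x, w) = true ↔ ∃ a : ℕ → Bool, (φ x).Sat a ∧ ∀ i < m x, a i = w.getD i false)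

/-! ### the code of the instance -/

/-- data of a drawing: subcolumns, `M`, `e`, and the table of the parameters `A i`, `C i`, `R i` -/
abbrev Dat := (List Sub × ℕ) × (ℕ × List (Wr ℕ × (Wr ℕ × Wr ℕ)))

/-- entry of the table -/
def row (t : List (Wr ℕ × (Wr ℕ × Wr ℕ))) (i : ℕ) : Wr ℕ × (Wr ℕ × Wr ℕ) :=
  t.getD i (⟨0⟩, ⟨0⟩, ⟨0⟩)

/-- the parameters given by the data -/
def par (d : Dat) : Par :=
  ⟨d.1.1, d.1.2, d.2.1, fun i => (row d.2.2 i).1.val, fun i => (row d.2.2 i).2.1.val,
    fun i => (row d.2.2 i).2.2.val⟩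

/-- (PTV) the list of the vertices and the list of the forced pairs are computable in polynomial
time -/
def specPTV : Prop := ∀ (γ : Type) [Enc γ] (d : γ → Dat), PTf d →
  PTf (fun x => (par (d x)).V) ∧ PTf (fun x => (par (d x)).FL)

/-- (PTX) coordinates -/
def specPTX : Prop := BNS → ∀ (γ : Type) [Enc γ] (d : γ → Dat) (a : γ → Vx), PTf d → PTf a →
  PBin (fun x => (par (d x)).px (a x)) ∧ PBin (fun x => (par (d x)).py (a x)) ∧
  PBin (fun x => (par (d x)).one (a x))

/-- (PTC) raw data of the instance -/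
def specPTC : Prop := BNS → specPTV → specPTX → ∀ (γ : Type) [Enc γ] (d : γ → Dat) (W : γ → ℕ),
  PTf d → PTf W →
  PTf (fun x => ((par (d x)).V.map (fun a => ((false, ((par (d x)).px a).bits),
    (false, ((par (d x)).py a).bits))), ((par (d x)).Lam + W x).bits))

/-! ### the reduction -/

open Classical in
/-- (EQ1) data for a selection problem -/
def specEQ1 : Prop := specCW → BNS → ∀ (γ : Type) [Enc γ] (vec : γ → List (ℕ × ℕ)) (bnd : γ → ℕ)
  (ver : γ × List Bool → Bool), PTf (fun x => (⟨vec x⟩ : Wr (List (ℕ × ℕ)))) → PBin bnd →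
  PTf ver → ∃ (d : γ → Dat) (W : γ → ℕ) (φ : γ → CNF), PTf d ∧ PTf W ∧
    ∀ x, (par (d x)).Ok (W x) ∧ 0 < W x ∧ (par (d x)).s = subs (φ x) ∧
      (∀ c ∈ φ x, ∀ l ∈ c, l.1 < (par (d x)).rows) ∧
      ((∃ w : List Bool, w.length = (vec x).length ∧ ver (x, w) = true ∧
        sel (vec x) w ≤ bnd x) ↔
      ∃ a : ℕ → Bool, (φ x).Sat a ∧
        ∑ i ∈ Finset.range (par (d x)).rows, (if a i = true then (par (d x)).om i else 0) ≤ W x)

/-! ### EXACT EUCLIDEAN TSP is a selection problem -/

/-- the differences of all pairs of points, and as many zero vectors -/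
def vecT (I : Instance) : List (ℕ × ℕ) :=
  ((List.ofFn I.pt).flatMap fun p => (List.ofFn I.pt).map fun q =>
    ((p.1 - q.1).natAbs, (p.2 - q.2).natAbs)) ++ List.replicate (I.n * I.n) (0, 0)

/-- bit `(a, b)` of the first block: the tour goes from point `a` to point `b` -/
def eT (n : ℕ) (w : List Bool) (a b : ℕ) : Bool := w.getD (a * n + b) false

/-- bit `(t, a)` of the second block: the tour is at point `a` at time `t` -/
def pT (n : ℕ) (w : List Bool) (t a : ℕ) : Bool := w.getD (n * n + (t * n + a)) false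

/-- the verifier -/
def verT (q : Instance × List Bool) : Bool :=
  (List.range q.1.n).all (fun t =>
    decide (((List.range q.1.n).filter fun a => pT q.1.n q.2 t a).length = 1) &&
    decide (((List.range q.1.n).filter fun a => pT q.1.n q.2 a t).length = 1) &&
    (List.range q.1.n).all (fun b => eT q.1.n q.2 t b ==
      (List.range q.1.n).any (fun u => pT q.1.n q.2 u t && pT q.1.n q.2 ((u + 1) % q.1.n) b)))

/-- (MEM1) -/
def specMEM1 : Prop := ∀ I : Instance, I.Yes ↔ ∃ w : List Bool, w.length = (vecT I).length ∧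
  verT (I, w) = true ∧ sel (vecT I) w ≤ I.bound

/-- (MEM2) -/
def specMEM2 : Prop := specLINK → BNS →
  PolyTime vecT ∧ PolyTime (fun I : Instance => I.bound) ∧ PolyTime verT

end Pool.Agent.Helper52.ES
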