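import Pool.Agent.Helper52.ES.Spec
import Pool.Agent.Helper52.ES.Spec2

set_option autoImplicit false

/-! # Completeness -/

namespace Pool.Agent.Helper52.ES

open Pool.Agent.Helper58 Function
open Pool.Agent.Helper52.Grid (Sub CNF subs)
open Pool.Agent.Helper52.ETSP (nrm Instance)
open Pool.Agent.Helper99.ETSP (conv raw)

theorem encI_of {α : Type} [Poly.Enc α] (h : Injective (Poly.code : α → List Bool)) : EncI α :=
  ⟨fun a b hab => h (by unfold Poly.code; rw [hab])⟩

theorem inst_inj {p : Par} (h : (p.V.map p.pos).Nodup) :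
    Injective (fun i : Fin p.V.length => p.pos (p.V.get i)) := by
  intro i j hij
  have h1 := List.nodup_iff_injective_get.1 h
  have h2 : (p.V.map p.pos).get (i.cast (by simp)) = (p.V.map p.pos).get (j.cast (by simp)) := by
    simpa using hij
  have h3 := congrArg Fin.val (h1 h2)
  exact Fin.ext (by simpa using h3)

/-- the instance of a drawing -/
def inst (p : Par) (W : ℕ) (h : (p.V.map p.pos).Nodup) (hW : 0 < W) : Instance where
  n := p.V.length
  pt := fun i => p.pos (p.V.get i)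
  inj := inst_inj h
  bound := p.Lam + W
  bound_pos := by omega

theorem inst_pt (p : Par) (W : ℕ) (h : (p.V.map p.pos).Nodup) (hW : 0 < W) :
    List.ofFn (inst p W h hW).pt = p.V.map p.pos := by
  apply List.ext_getElem
  · simp [inst]
  · intro i h1 h2
    simp [inst]

theorem raw_nat {z : ℤ} {n : ℕ} (h : z = n) : (decide (z < 0), z.natAbs.bits) = (false, n.bits) := by
  subst h
  simp

theorem raw_inst (p : Par) (W : ℕ) (h : (p.V.map p.pos).Nodup) (hW : 0 < W) :
    raw (inst p W h hW) = (p.V.map (fun a => ((false, (p.px a).bits), (false, (p.py a).bits))),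
      (p.Lam + W).bits) := by
  unfold raw
  refine Prod.ext ?_ rfl
  rw [inst_pt, List.map_map]
  apply List.map_congr_left
  intro a _
  exact Prod.ext (raw_nat rfl) (raw_nat rfl)

/-- verifiers in the two settings -/
theorem ver_iff (link : specLINK) {α : Type} [Poly.Enc α] [EncI α] (ver : α × List Bool → Bool) :
    PolyTime ver ↔ PTf (fun q : Wr α × List Bool => ver (q.1.val, q.2)) := by
  rw [link]
  constructor
  · intro h
    have h1 : PTf (fun x : Wr (α × List Bool) => ver x.val) := (wr_bool _).1 h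
    have h2 : PTf (fun q : Wr α × List Bool => (⟨(q.1.val, q.2)⟩ : Wr (α × List Bool))) := by
      rw [wr_pair]
      exact PTf.pair (PTf.fst PTf.id) ((wr_bits _).2 (PTf.snd PTf.id))
    exact PTf.comp (g := fun x : Wr (α × List Bool) => ver x.val) h1 h2
  · intro h
    rw [wr_bool]
    have h1 : PTf (fun x : Wr (α × List Bool) => (⟨(x.val.1, x.val.2)⟩ : Wr (α × List Bool))) :=
      PTf.id
    rw [wr_pair] at h1
    have h2 : PTf (fun x : Wr (α × List Bool) => ((⟨x.val.1⟩ : Wr α), x.val.2)) :=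
      PTf.pair (PTf.fst h1) ((wr_bits _).1 (PTf.snd h1))
    exact PTf.comp (g := fun q : Wr α × List Bool => ver (q.1.val, q.2)) h h2

/-- hardness -/
theorem hard (nf : specNF) (vm : specVM) (fk : specFK) (fn : specFN) (ij : specIJ) (g : specG)
    (link : specLINK) (bn : specBN) (cw : specCW) (ptv : specPTV) (ptx : specPTX) (ptc : specPTC)
    (eq1 : specEQ1) {α : Type} [Poly.Enc α] [EncI α] {L : α → Prop} (hL : ESR L) :
    Reduces L Instance.Yes := by
  obtain ⟨vec, bnd, ver, h1, h2, h3, h4⟩ := hL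
  have h1' := (link _ _ vec).1 h1
  have h2' := (link _ _ bnd).1 h2
  have h3' := (ver_iff link ver).1 h3
  obtain ⟨d, W, φ, hd, hW, hx⟩ := eq1 cw bn (Wr α) (fun x => vec x.val) (fun x => bnd x.val)
    (fun q => ver (q.1.val, q.2)) h1' h2' h3'
  have hn : ∀ x, ((par (d x)).V.map (par (d x)).pos).Nodup := by
    intro x
    have ok := (hx x).1
    exact ij _ _ ok (nf _ _ ok) (vm _ _ ok (nf _ _ ok)) (fk _ _ ok)
      (fn _ _ ok (nf _ _ ok) (vm _ _ ok (nf _ _ ok)) (fk _ _ ok))
  refine ⟨fun a => inst (par (d ⟨a⟩)) (W ⟨a⟩) (hn ⟨a⟩) (hx ⟨a⟩).2.1, ?_, ?_⟩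
  · rw [link]
    rw [wr_raw]
    refine (ptc bn ptv ptx (Wr α) d W hd hW).congr (fun x => ?_)
    exact raw_inst _ _ _ _
  · intro a
    obtain ⟨ok, hpos, hs, hv, he⟩ := hx ⟨a⟩
    rw [h4]
    refine he.trans ?_
    exact (g _ _ _ _ ok hs hv (inst_pt _ _ _ _) rfl).symm

/-- closure under reductions -/
theorem closed (link : specLINK) {α β : Type} [Poly.Enc α] [EncI α] [Poly.Enc β] [EncI β]
    {L : α → Prop} {L' : β → Prop} (h : Reduces L L') (h' : ESR L') : ESR L := by
  obtain ⟨f, hf, hL⟩ := h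
  obtain ⟨vec, bnd, ver, h1, h2, h3, h4⟩ := h'
  have hf' := (link _ _ f).1 hf
  refine ⟨fun a => vec (f a), fun a => bnd (f a), fun q => ver (f q.1, q.2), ?_, ?_, ?_, ?_⟩
  · rw [link] at h1 ⊢
    exact PTf.comp (g := fun x : Wr β => (⟨vec x.val⟩ : Wr _)) h1 hf'
  · rw [link] at h2 ⊢
    exact PTf.comp (g := fun x : Wr β => (⟨bnd x.val⟩ : Wr _)) h2 hf'
  · rw [ver_iff link] at h3 ⊢
    have h5 : PTf (fun q : Wr α × List Bool => ((⟨f q.1.val⟩ : Wr β), q.2)) :=
      PTf.pair (PTf.comp (g := fun x : Wr α => (⟨f x.val⟩ : Wr β)) hf' (PTf.fst PTf.id))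
        (PTf.snd PTf.id)
    exact PTf.comp (g := fun q : Wr β × List Bool => ver (q.1.val, q.2)) h3 h5
  · intro a
    rw [hL, h4]

/-- membership -/
theorem memb (link : specLINK) (bn : specBN) (m1 : specMEM1) (m2 : specMEM2) :
    ESR Instance.Yes := by
  obtain ⟨h1, h2, h3⟩ := m2 link bn
  exact ⟨vecT, fun I => I.bound, verT, h1, h2, h3, m1⟩

end Pool.Agent.Helper52.ES
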