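import Pool.Agent.Helper52.ES.Spec

set_option autoImplicit false

/-! # Module GC: combinatorial conditions -/

namespace Pool.Agent.Helper52.ES

open Pool.Agent.Helper52.Grid

variable {p : Par} {W : ℕ}

theorem F_symm {a b : Vx} (h : p.F a b) : p.F b a := Or.symm h

theorem O_symm {a b : Vx} (h : p.O a b) : p.O b a := Or.symm h

/-- both ends of an optional pair -/
theorem O1_ends (nf : p.NF) {a b : Vx} (h : p.O1 a b) :
    (∃ x y, a = lat x y ∧ p.fd x y = 1 ∧ p.hub x y = false) ∨ (∃ i < p.rows, ∃ c < 4, a = ring i c) := by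
  cases h with
  | hor x y hx h =>
    have h1 := nf.oh x y h
    refine Or.inl ⟨x, y, rfl, h1.2.2.2.1, ?_⟩
    by_contra h2
    have := (nf.hubI x y).1 (by simpa using h2)
    omega
  | ver x y hx h =>
    have h1 := nf.ov x y h
    refine Or.inl ⟨x, y, rfl, h1.2.2.2.1, ?_⟩
    by_contra h2
    have := (nf.hubI x y).1 (by simpa using h2)
    omega
  | rin i c hi hc => exact Or.inr ⟨i, hi, c, hc, rfl⟩

theorem O1_ends' (nf : p.NF) {a b : Vx} (h : p.O1 a b) :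
    (∃ x y, b = lat x y ∧ p.fd x y = 1 ∧ p.hub x y = false) ∨ (∃ i < p.rows, ∃ c < 4, b = ring i c) := by
  cases h with
  | hor x y hx h =>
    have h1 := nf.oh x y h
    refine Or.inl ⟨x + 1, y, rfl, h1.2.2.2.2, ?_⟩
    by_contra h2
    have := (nf.hubI (x + 1) y).1 (by simpa using h2)
    omega
  | ver x y hx h =>
    have h1 := nf.ov x y h
    refine Or.inl ⟨x, y + 1, rfl, h1.2.2.2.2, ?_⟩
    by_contra h2
    have := (nf.hubI x (y + 1)).1 (by simpa using h2)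
    omega
  | rin i c hi hc => exact Or.inr ⟨i, hi, (c + 1) % 4, by omega, rfl⟩

theorem O_ends (nf : p.NF) {a b : Vx} (h : p.O a b) :
    (∃ x y, a = lat x y ∧ p.fd x y = 1 ∧ p.hub x y = false) ∨ (∃ i < p.rows, ∃ c < 4, a = ring i c) :=
  h.elim (O1_ends nf) (O1_ends' nf)

theorem O_ne {a b : Vx} (h : p.O1 a b) : a ≠ b := by
  cases h with
  | hor x y _ _ => simp [lat]
  | ver x y _ _ => simp [lat]
  | rin i c _ hc =>
    intro h
    simp only [ring, Prod.mk.injEq, true_and, and_true] at h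
    omega

/-- a site with one forced edge has one forced neighbour -/
theorem lat_one (fn : p.FN) {x y : ℕ} (h : p.fd x y = 1) (hh : p.hub x y = false) {b c : Vx}
    (hb : p.F (lat x y) b) (hc : p.F (lat x y) c) : b = c := by
  rw [fn.lat x y b hh] at hb
  rw [fn.lat x y c hh] at hc
  unfold Par.fd at h
  rcases hb with ⟨h1, rfl⟩ | ⟨h0, h1, rfl⟩ | ⟨h1, rfl⟩ | ⟨h0, h1, rfl⟩ <;>
    rcases hc with ⟨h2, rfl⟩ | ⟨h3, h2, rfl⟩ | ⟨h2, rfl⟩ | ⟨h3, h2, rfl⟩ <;>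
    first
    | rfl
    | (exfalso
       simp only [h1, h2, if_true, *, true_and, and_true] at h
       omega)

/-- a site has at most two forced neighbours -/
theorem lat_most (nf : p.NF) (fn : p.FN) {x y : ℕ} (hh : p.hub x y = false) {b c d : Vx}
    (hb : p.F (lat x y) b) (hc : p.F (lat x y) c) (hd : p.F (lat x y) d) :
    b = c ∨ b = d ∨ c = d := by
  have h := nf.two x y hh
  rw [fn.lat x y _ hh] at hb hc hd
  unfold Par.fd at h
  rcases hb with ⟨h1, rfl⟩ | ⟨h0, h1, rfl⟩ | ⟨h1, rfl⟩ | ⟨h0, h1, rfl⟩ <;>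
    rcases hc with ⟨h2, rfl⟩ | ⟨h3, h2, rfl⟩ | ⟨h2, rfl⟩ | ⟨h3, h2, rfl⟩ <;>
    rcases hd with ⟨h4, rfl⟩ | ⟨h5, h4, rfl⟩ | ⟨h4, rfl⟩ | ⟨h5, h4, rfl⟩ <;>
    first
    | exact Or.inl rfl
    | exact Or.inr (Or.inl rfl)
    | exact Or.inr (Or.inr rfl)
    | (exfalso
       simp only [h1, h2, h4, if_true, *, true_and, and_true] at h
       omega)

/-- every vertex of the list has a forced neighbour, and the vertex is a site with one forced
edge, a ring vertex, or has exactly two forced neighbours -/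
theorem lat_two (fn : p.FN) {x y : ℕ} (h : p.fd x y = 2) (hh : p.hub x y = false) :
    ∃ b c, b ≠ c ∧ p.F (lat x y) b ∧ p.F (lat x y) c := by
  have key := fn.lat x y
  unfold Par.fd at h
  by_cases h1 : p.h x y = 0
  · by_cases h2 : 0 < x ∧ p.h (x - 1) y = 0
    · refine ⟨hm x y, hm (x - 1) y, ?_, (key _ hh).2 (Or.inl ⟨h1, rfl⟩),
        (key _ hh).2 (Or.inr (Or.inl ⟨h2.1, h2.2, rfl⟩))⟩
      simp only [hm, ne_eq, Prod.mk.injEq, true_and, and_true]
      omega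
    · by_cases h3 : p.v x y = 0
      · exact ⟨hm x y, vm x y, by simp [hm, vm], (key _ hh).2 (Or.inl ⟨h1, rfl⟩),
          (key _ hh).2 (Or.inr (Or.inr (Or.inl ⟨h3, rfl⟩)))⟩
      · by_cases h4 : 0 < y ∧ p.v x (y - 1) = 0
        · exact ⟨hm x y, vm x (y - 1), by simp [hm, vm], (key _ hh).2 (Or.inl ⟨h1, rfl⟩),
            (key _ hh).2 (Or.inr (Or.inr (Or.inr ⟨h4.1, h4.2, rfl⟩)))⟩
        · simp [h1, h2, h3, h4] at h
  · by_cases h2 : 0 < x ∧ p.h (x - 1) y = 0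
    · by_cases h3 : p.v x y = 0
      · exact ⟨hm (x - 1) y, vm x y, by simp [hm, vm],
          (key _ hh).2 (Or.inr (Or.inl ⟨h2.1, h2.2, rfl⟩)),
          (key _ hh).2 (Or.inr (Or.inr (Or.inl ⟨h3, rfl⟩)))⟩
      · by_cases h4 : 0 < y ∧ p.v x (y - 1) = 0
        · exact ⟨hm (x - 1) y, vm x (y - 1), by simp [hm, vm],
            (key _ hh).2 (Or.inr (Or.inl ⟨h2.1, h2.2, rfl⟩)),
            (key _ hh).2 (Or.inr (Or.inr (Or.inr ⟨h4.1, h4.2, rfl⟩)))⟩
        · simp [h1, h2, h3, h4] at h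
    · by_cases h3 : p.v x y = 0
      · by_cases h4 : 0 < y ∧ p.v x (y - 1) = 0
        · refine ⟨vm x y, vm x (y - 1), ?_, (key _ hh).2 (Or.inr (Or.inr (Or.inl ⟨h3, rfl⟩))),
            (key _ hh).2 (Or.inr (Or.inr (Or.inr ⟨h4.1, h4.2, rfl⟩)))⟩
          simp only [vm, ne_eq, Prod.mk.injEq, true_and, and_true]
          omega
        · simp [h1, h2, h3, h4] at h
      · by_cases h4 : 0 < y ∧ p.v x (y - 1) = 0
        · simp [h1, h2, h3, h4] at h
        · simp [h1, h2, h3, h4] at h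

theorem st_ne_h (nf : p.NF) {x y : ℕ} (h : p.h x y = 0) : p.st x y 3 ≠ p.st (x + 1) y 1 := by
  unfold Par.st
  by_cases h1 : p.hub x y = true <;> by_cases h2 : p.hub (x + 1) y = true
  · rw [if_pos h1, if_pos h2]
    simp [coin]
  · rw [if_pos h1, if_neg h2]
    simp [coin, lat]
  · rw [if_neg h1, if_pos h2]
    simp [coin, lat]
  · rw [if_neg h1, if_neg h2]
    simp [lat]

theorem st_ne_v (nf : p.NF) {x y : ℕ} (h : p.v x y = 0) : p.st x y 2 ≠ p.st x (y + 1) 0 := by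
  unfold Par.st
  by_cases h1 : p.hub x y = true <;> by_cases h2 : p.hub x (y + 1) = true
  · rw [if_pos h1, if_pos h2]
    simp [coin]
  · rw [if_pos h1, if_neg h2]
    simp [coin, lat]
  · rw [if_neg h1, if_pos h2]
    simp [coin, lat]
  · rw [if_neg h1, if_neg h2]
    simp [lat]

theorem mid_ne (p : Par) (i c c' k : ℕ) : p.mid i c ≠ coin i c' k ∧ p.mid i c ≠ ring i c' := by
  unfold Par.mid
  split_ifs <;> simp [coin, ring, hm, vm]

/-- the two forced neighbours of a midpoint or of a disc -/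
theorem two_nb (nf : p.NF) (vm' : p.VM) (fk : p.FK) (fn : p.FN) {a : Vx} (ha : a ∈ p.V) :
    (∃ x y, a = lat x y ∧ p.fd x y = 1 ∧ p.hub x y = false) ∨
    (∃ x y, a = lat x y ∧ p.fd x y = 2 ∧ p.hub x y = false) ∨
    (∃ i < p.rows, ∃ c < 4, a = ring i c) ∨
    ((∃ b c, b ≠ c ∧ ∀ d, p.F a d ↔ (d = b ∨ d = c)) ∧
      ((∃ x y, a = hm x y) ∨ (∃ x y, a = vm x y) ∨ ∃ i c k, a = coin i c k)) := by
  rcases vm'.form a ha with ⟨x, y, rfl⟩ | ⟨x, y, rfl⟩ | ⟨x, y, rfl⟩ | ⟨i, c, rfl⟩ | ⟨i, c, k, rfl⟩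
  · have h1 := (vm'.lat x y).1 ha
    have h2 := nf.two x y h1.2
    have h3 : p.fd x y = 1 ∨ p.fd x y = 2 := by omega
    rcases h3 with h3 | h3
    · exact Or.inl ⟨x, y, rfl, h3, h1.2⟩
    · exact Or.inr (Or.inl ⟨x, y, rfl, h3, h1.2⟩)
  · have h1 := (vm'.hm x y).1 ha
    refine Or.inr (Or.inr (Or.inr ⟨⟨_, _, st_ne_h nf h1, fun d => ?_⟩, Or.inl ⟨x, y, rfl⟩⟩))
    rw [fn.hm]
    exact ⟨fun h => h.2, fun h => ⟨h1, h⟩⟩
  · have h1 := (vm'.vm x y).1 ha
    refine Or.inr (Or.inr (Or.inr ⟨⟨_, _, st_ne_v nf h1, fun d => ?_⟩, Or.inr (Or.inl ⟨x, y, rfl⟩)⟩))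
    rw [fn.vm]
    exact ⟨fun h => h.2, fun h => ⟨h1, h⟩⟩
  · have h1 := (vm'.ring i c).1 ha
    exact Or.inr (Or.inr (Or.inl ⟨i, h1.1, c, h1.2, rfl⟩))
  · have h1 := (vm'.coin i c k).1 ha
    have h2 := (fk.cn i h1.1 c h1.2.1 k).1 h1.2.2.2
    have h3 := fk.lt i h1.1 c h1.2.1
    refine Or.inr (Or.inr (Or.inr ⟨⟨_, _, ?_, fn.coin i h1.1 c h1.2.1 k h2 h1.2.2.1⟩,
      Or.inr (Or.inr ⟨i, c, k, rfl⟩)⟩))
    by_cases e1 : k = p.fk i c <;> by_cases e2 : k = p.e + 2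
    · omega
    · rw [if_pos e1, if_neg e2]
      simp [ring, coin]
    · rw [if_neg e1, if_pos e2]
      exact fun h => (mid_ne p i c c (k - 1)).1 h.symm
    · rw [if_neg e1, if_neg e2]
      simp only [coin, ne_eq, Prod.mk.injEq, true_and]
      omega

/-- the vertices with two forced neighbours -/
theorem two_iff (nf : p.NF) (vm' : p.VM) (fk : p.FK) (fn : p.FN) {a : Vx} (ha : a ∈ p.V) :
    (p.net W).Two a ↔ ¬ ((∃ x y, a = lat x y ∧ p.fd x y = 1) ∨ (∃ i c, a = ring i c)) := by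
  have hF : ∀ b, (p.net W).F a b ↔ p.F a b := fun b => Iff.rfl
  unfold Net.Two
  simp only [hF]
  rcases two_nb nf vm' fk fn ha with ⟨x, y, rfl, h1, h2⟩ | ⟨x, y, rfl, h1, h2⟩ |
    ⟨i, hi, c, hc, rfl⟩ | ⟨⟨b, c, hbc, h⟩, h2⟩
  · constructor
    · rintro ⟨b, c, hbc, hb, hc⟩
      exact absurd (lat_one fn h1 h2 hb hc) hbc
    · intro h
      exact absurd (Or.inl ⟨x, y, rfl, h1⟩) h
  · refine ⟨fun _ => ?_, fun _ => lat_two fn h1 h2⟩
    rintro (⟨x', y', h3, h4⟩ | ⟨i, c, h3⟩)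
    · simp only [lat, Prod.mk.injEq, true_and, and_true] at h3
      rw [← h3.1, ← h3.2] at h4
      omega
    · simp [lat, ring] at h3
  · constructor
    · rintro ⟨b, c', hbc, hb, hc'⟩
      rw [fn.ring i hi c hc] at hb hc'
      exact absurd (hb.trans hc'.symm) hbc
    · intro h
      exact absurd (Or.inr ⟨i, c, rfl⟩) h
  · refine ⟨fun _ => ?_, fun _ => ⟨b, c, hbc, (h b).2 (Or.inl rfl), (h c).2 (Or.inr rfl)⟩⟩
    rcases h2 with ⟨x, y, rfl⟩ | ⟨x, y, rfl⟩ | ⟨i, c, k, rfl⟩ <;>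
    · rintro (⟨x', y', h3, h4⟩ | ⟨i, c, h3⟩)
      · simp [lat, hm, vm, coin] at h3
      · simp [hm, vm, coin, ring] at h3

/-- a forced pair contains a midpoint or a disc -/
theorem F_form {a b : Vx} (h : p.F a b) :
    (∃ x y, a = hm x y) ∨ (∃ x y, a = vm x y) ∨ (∃ i c k, a = coin i c k) ∨
    (∃ x y, b = hm x y) ∨ (∃ x y, b = vm x y) ∨ (∃ i c k, b = coin i c k) := by
  have key : ∀ a b : Vx, (a, b) ∈ p.FL →
      (∃ x y, a = hm x y) ∨ (∃ x y, a = vm x y) ∨ (∃ i c k, a = coin i c k) ∨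
      (∃ x y, b = hm x y) ∨ (∃ x y, b = vm x y) ∨ (∃ i c k, b = coin i c k) := by
    intro a b h
    unfold Par.FL at h
    rw [List.mem_append, List.mem_flatMap, List.mem_flatMap] at h
    rcases h with ⟨x, -, h⟩ | ⟨i, -, h⟩
    · rw [List.mem_flatMap] at h
      obtain ⟨y, -, h⟩ := h
      unfold Par.fcell at h
      rw [List.mem_append] at h
      rcases h with h | h
      · split_ifs at h
        · simp only [List.mem_cons, List.not_mem_nil, or_false, Prod.mk.injEq] at h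
          rcases h with ⟨-, rfl⟩ | ⟨rfl, -⟩
          · exact Or.inr (Or.inr (Or.inr (Or.inl ⟨x, y, rfl⟩)))
          · exact Or.inl ⟨x, y, rfl⟩
        · simp at h
      · split_ifs at h
        · simp only [List.mem_cons, List.not_mem_nil, or_false, Prod.mk.injEq] at h
          rcases h with ⟨-, rfl⟩ | ⟨rfl, -⟩
          · exact Or.inr (Or.inr (Or.inr (Or.inr (Or.inl ⟨x, y, rfl⟩))))
          · exact Or.inr (Or.inl ⟨x, y, rfl⟩)
        · simp at h
    · rw [List.mem_flatMap] at h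
      obtain ⟨c, -, h⟩ := h
      unfold Par.farm at h
      rw [List.mem_map] at h
      obtain ⟨k, -, h⟩ := h
      rw [Prod.mk.injEq] at h
      exact Or.inr (Or.inr (Or.inr (Or.inr (Or.inr ⟨i, c, k, h.2.symm⟩))))
  rcases h with h | h
  · exact key a b h
  · rcases key b a h with h | h | h | h | h | h
    · exact Or.inr (Or.inr (Or.inr (Or.inl h)))
    · exact Or.inr (Or.inr (Or.inr (Or.inr (Or.inl h))))
    · exact Or.inr (Or.inr (Or.inr (Or.inr (Or.inr h))))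
    · exact Or.inl h
    · exact Or.inr (Or.inl h)
    · exact Or.inr (Or.inr (Or.inl h))

theorem gc : specGC := by
  intro p W hp nf vm' fk fn
  have memF : ∀ a b, p.F a b → a ∈ p.V ∧ b ∈ p.V := by
    rintro a b (h | h)
    · exact ⟨(fn.memV a b h).1, (fn.memV a b h).2.1⟩
    · exact ⟨(fn.memV b a h).2.1, (fn.memV b a h).1⟩
  have two : ∀ a, a ∈ p.V → ((∃ x y, a = hm x y) ∨ (∃ x y, a = vm x y) ∨ (∃ i c k, a = coin i c k)) →
      (p.net W).Two a := by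
    intro a ha h
    rw [two_iff nf vm' fk fn ha]
    rcases h with ⟨x, y, rfl⟩ | ⟨x, y, rfl⟩ | ⟨i, c, k, rfl⟩ <;>
    · rintro (⟨x', y', h3, h4⟩ | ⟨i, c, h3⟩)
      · simp [lat, hm, vm, coin] at h3
      · simp [hm, vm, coin, ring] at h3
  have memO : ∀ a b, p.O a b → a ∈ p.V := by
    intro a b h
    rcases O_ends nf h with ⟨x, y, rfl, h1, h2⟩ | ⟨i, hi, c, hc, rfl⟩
    · exact (vm'.lat x y).2 ⟨by omega, h2⟩
    · exact (vm'.ring i c).2 ⟨hi, hc⟩
  refine ⟨vm'.nodup, fn.nodup, fn.anti, fn.memV, ?_, fun a b h => O_symm h, ?_, ?_, ?_, ?_⟩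
  · intro a b h
    refine ⟨memO a b h, memO b a (O_symm h), ?_⟩
    rcases h with h | h
    · exact O_ne h
    · exact (O_ne h).symm
  · intro a ha
    show ∃ b, p.F a b
    rcases two_nb nf vm' fk fn ha with ⟨x, y, rfl, h1, h2⟩ | ⟨x, y, rfl, h1, h2⟩ |
      ⟨i, hi, c, hc, rfl⟩ | ⟨⟨b, c, hbc, h⟩, h2⟩
    · by_contra hcon
      push Not at hcon
      have key := fn.lat x y
      unfold Par.fd at h1
      have c1 : ¬ p.h x y = 0 := fun h => hcon _ ((key _ h2).2 (Or.inl ⟨h, rfl⟩))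
      have c2 : ¬ (0 < x ∧ p.h (x - 1) y = 0) :=
        fun h => hcon _ ((key _ h2).2 (Or.inr (Or.inl ⟨h.1, h.2, rfl⟩)))
      have c3 : ¬ p.v x y = 0 := fun h => hcon _ ((key _ h2).2 (Or.inr (Or.inr (Or.inl ⟨h, rfl⟩))))
      have c4 : ¬ (0 < y ∧ p.v x (y - 1) = 0) :=
        fun h => hcon _ ((key _ h2).2 (Or.inr (Or.inr (Or.inr ⟨h.1, h.2, rfl⟩))))
      rw [if_neg c1, if_neg c2, if_neg c3, if_neg c4] at h1
      omega
    · obtain ⟨b, c, -, h, -⟩ := lat_two fn h1 h2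
      exact ⟨b, h⟩
    · exact ⟨_, (fn.ring i hi c hc _).2 rfl⟩
    · exact ⟨b, (h b).2 (Or.inl rfl)⟩
  · intro a b c d hb hc hd
    have ha := (memF a b hb).1
    rcases two_nb nf vm' fk fn ha with ⟨x, y, rfl, h1, h2⟩ | ⟨x, y, rfl, h1, h2⟩ |
      ⟨i, hi, c, hc', rfl⟩ | ⟨⟨b', c', hbc, h⟩, h2⟩
    · exact lat_most nf fn h2 hb hc hd
    · exact lat_most nf fn h2 hb hc hd
    · left
      exact ((fn.ring i hi _ hc' b).1 hb).trans ((fn.ring i hi _ hc' _).1 hc).symm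
    · rcases (h b).1 hb with rfl | rfl <;> rcases (h c).1 hc with rfl | rfl <;>
        rcases (h d).1 hd with rfl | rfl <;> simp
  · intro a b h1 h2
    have ha := memO a b h2
    rw [two_iff nf vm' fk fn ha] at h1
    apply h1
    rcases O_ends nf h2 with ⟨x, y, rfl, h3, h4⟩ | ⟨i, hi, c, hc, rfl⟩
    · exact Or.inl ⟨x, y, rfl, h3⟩
    · exact Or.inr ⟨i, c, rfl⟩
  · intro a b h
    have hm := memF a b h
    rcases F_form h with h1 | h1 | h1 | h1 | h1 | h1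
    · exact Or.inl (two a hm.1 (Or.inl h1))
    · exact Or.inl (two a hm.1 (Or.inr (Or.inl h1)))
    · exact Or.inl (two a hm.1 (Or.inr (Or.inr h1)))
    · exact Or.inr (two b hm.2 (Or.inl h1))
    · exact Or.inr (two b hm.2 (Or.inr (Or.inl h1)))
    · exact Or.inr (two b hm.2 (Or.inr (Or.inr h1)))

end Pool.Agent.Helper52.ES
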