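import Pool.Agent.Helper52.ES.GC
import Pool.Agent.Helper59.ES.Basis

set_option autoImplicit false

/-! # Module GM: metric conditions (assembly) -/

namespace Pool.Agent.Helper52.ES

open Pool.Agent.Helper52.Grid
open Pool.Agent.Helper59.ES (dst_comm far_comm)

theorem gm (s1 : specS1) (s2 : specS2) (s3 : specS3) (s4 : specS4) (s5 : specS5) (s6 : specS6)
    (s7 : specS7) (s8 : specS8) (lf : specLF) (lo : specLO) : specGM := by
  intro p W hp nf vm' fk fn
  have hlo := lo p W hp nf
  have O1le : ∀ a b, p.O1 a b → p.rad a + p.rad b ≤ p.dst a b := by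
    intro a b h
    cases h with
    | hor x y hx h => exact (hlo.1 x y h).ge
    | ver x y hx h => exact (hlo.2.1 x y h).ge
    | rin i c hi hc =>
      have h3 := hlo.2.2 i hi
      have hc' : c = 0 ∨ c = 1 ∨ c = 2 ∨ c = 3 := by omega
      rcases hc' with rfl | rfl | rfl | rfl
      · exact h3.1.ge
      · have h4 := h3.2.2.2.1
        have h5 := h3.2.2.2.2
        show p.rad (ring i 1) + p.rad (ring i 2) ≤ p.dst (ring i 1) (ring i 2)
        linarith
      · exact h3.2.1.ge
      · exact h3.2.2.1.ge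
  -- the vertices of an arm
  have arm : ∀ a ∈ p.V, ((∃ i c, a = ring i c) ∨ ∃ i c k, a = coin i c k) → ∃ i c, p.Arm a i c := by
    rintro a ha (⟨i, c, rfl⟩ | ⟨i, c, k, rfl⟩)
    · have h1 := (vm'.ring i c).1 ha
      exact ⟨i, c, h1.1, h1.2, Or.inl rfl⟩
    · have h1 := (vm'.coin i c k).1 ha
      exact ⟨i, c, h1.1, h1.2.1, Or.inr ⟨k, (fk.cn i h1.1 c h1.2.1 k).1 h1.2.2.2, h1.2.2.1, rfl⟩⟩
  have Fmid : ∀ i < p.rows, ∀ c < 4, p.F (coin i c (p.e + 2)) (p.mid i c) := by
    intro i hi c hc
    have h1 := fk.lt i hi c hc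
    rw [fn.coin i hi c hc (p.e + 2) (by omega) (by omega)]
    right
    rw [if_pos rfl]
  -- two vertices of arms
  have armarm : ∀ a i c b j d, p.Arm a i c → p.Arm b j d → a ≠ b → ¬ p.F a b → ¬ p.O a b →
      p.Far W a b := by
    intro a i c b j d ha hb hab hF hO
    by_cases hij : i = j
    · subst hij
      obtain ⟨hi, hc, ha⟩ := ha
      obtain ⟨-, hd, hb⟩ := hb
      -- same row
      have rc : ∀ c' < 4, ∀ d' < 4, ∀ k, p.fk i d' ≤ k → k < p.e + 3 →
          ¬ p.F (ring i c') (coin i d' k) → p.Far W (ring i c') (coin i d' k) := by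
        intro c' hc' d' hd' k hk1 hk2 hF'
        by_cases hcd : c' = d'
        · subst hcd
          rcases Nat.lt_or_ge (p.fk i c') k with h | h
          · exact (s4 p W hp fk i hi c' hc' k hk1 hk2).1 h
          · exfalso
            apply hF'
            rw [fn.ring i hi c' hc']
            rw [show k = p.fk i c' by omega]
        · exact (s5 p W hp fk i hi).2.2 c' hc' d' hd' hcd k hk1 hk2
      rcases ha with rfl | ⟨k, hk1, hk2, rfl⟩ <;> rcases hb with rfl | ⟨k', hk1', hk2', rfl⟩
      · have h5 := s5 p W hp fk i hi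
        have hcd : c ≠ d := by
          rintro rfl
          exact hab rfl
        have hO1 : ¬ (d = (c + 1) % 4) := by
          rintro rfl
          exact hO (Or.inl (Par.O1.rin i c hi hc))
        have hO2 : ¬ (c = (d + 1) % 4) := by
          rintro rfl
          exact hO (Or.inr (Par.O1.rin i d hi hd))
        have hcase : (c = 0 ∧ d = 2) ∨ (c = 2 ∧ d = 0) ∨ (c = 1 ∧ d = 3) ∨ (c = 3 ∧ d = 1) := by
          omega
        rcases hcase with ⟨rfl, rfl⟩ | ⟨rfl, rfl⟩ | ⟨rfl, rfl⟩ | ⟨rfl, rfl⟩
        · exact h5.1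
        · exact far_comm h5.1
        · exact h5.2.1
        · exact far_comm h5.2.1
      · exact rc c hc d hd k' hk1' hk2' hF
      · exact far_comm (rc d hd c hc k hk1 hk2 (fun h => hF (F_symm h)))
      · by_cases hcd : c = d
        · subst hcd
          have hne : k ≠ k' := by
            rintro rfl
            exact hab rfl
          have key : ∀ k, p.fk i c ≤ k → k + 1 < p.e + 3 → p.F (coin i c k) (coin i c (k + 1)) := by
            intro k h1 h2
            rw [fn.coin i hi c hc k h1 (by omega)]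
            right
            rw [if_neg (by omega)]
          have h1 : k' ≠ k + 1 := by
            rintro rfl
            exact hF (key k hk1 hk2')
          have h2 : k ≠ k' + 1 := by
            rintro rfl
            exact hF (F_symm (key k' hk1' hk2))
          rcases Nat.lt_or_gt_of_ne hne with h | h
          · exact (s4 p W hp fk i hi c hc k hk1 hk2).2 k' (by omega) hk2'
          · exact far_comm ((s4 p W hp fk i hi c hc k' hk1' hk2').2 k (by omega) hk2)
        · exact s6 p W hp fk i hi c hc d hd hcd k k' hk1 hk2 hk1' hk2'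
    · exact s7 p W hp fk a b i c j d ha hb hij
  -- arms against the lattice
  have armlat : ∀ a i c b, p.Arm a i c → b ∈ p.V → ((∃ x y, b = lat x y) ∨ (∃ x y, b = hm x y) ∨
      ∃ x y, b = vm x y) → ¬ p.F a b → p.Far W a b := by
    intro a i c b ha hb h hF
    have h8 := s8 p W hp nf fk a i c ha
    rcases h with ⟨x, y, rfl⟩ | ⟨x, y, rfl⟩ | ⟨x, y, rfl⟩
    · have h1 := (vm'.lat x y).1 hb
      exact h8.1 x y h1.1 h1.2
    · refine h8.2.1 x y ((vm'.hm x y).1 hb) ?_
      rintro ⟨rfl, h2⟩
      apply hF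
      rw [h2]
      exact Fmid i ha.1 c ha.2.1
    · refine h8.2.2 x y ((vm'.vm x y).1 hb) ?_
      rintro ⟨rfl, h2⟩
      apply hF
      rw [h2]
      exact Fmid i ha.1 c ha.2.1
  -- lattice against lattice
  have latmid : ∀ x y b, p.fd x y ≠ 0 → p.hub x y = false → b ∈ p.V → ((∃ x y, b = hm x y) ∨
      ∃ x y, b = vm x y) → ¬ p.F (lat x y) b → p.Far W (lat x y) b := by
    intro x y b h1 h2 hb h hF
    rcases h with ⟨x', y', rfl⟩ | ⟨x', y', rfl⟩
    · have h3 := (vm'.hm x' y').1 hb
      refine (s2 p W hp nf x y x' y' h1 h2).1 h3 ?_ ?_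
      · intro h
        simp only [Prod.mk.injEq] at h
        obtain ⟨rfl, rfl⟩ := h
        exact hF ((fn.lat x y _ h2).2 (Or.inl ⟨h3, rfl⟩))
      · intro h
        simp only [Prod.mk.injEq] at h
        obtain ⟨rfl, rfl⟩ := h
        exact hF ((fn.lat _ _ _ h2).2 (Or.inr (Or.inl ⟨by omega, by simpa using h3, by simp⟩)))
    · have h3 := (vm'.vm x' y').1 hb
      refine (s2 p W hp nf x y x' y' h1 h2).2 h3 ?_ ?_
      · intro h
        simp only [Prod.mk.injEq] at h
        obtain ⟨rfl, rfl⟩ := h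
        exact hF ((fn.lat x y _ h2).2 (Or.inr (Or.inr (Or.inl ⟨h3, rfl⟩))))
      · intro h
        simp only [Prod.mk.injEq] at h
        obtain ⟨rfl, rfl⟩ := h
        exact hF ((fn.lat _ _ _ h2).2
          (Or.inr (Or.inr (Or.inr ⟨by omega, by simpa using h3, by simp⟩))))
  refine ⟨by show (0 : ℝ) < (W : ℝ) + 1; positivity, fun a b => dst_comm a b,
    fun a b h => (lf p W hp nf vm' fk fn a b h).2.2, ?_, ?_⟩
  · rintro a b (h | h)
    · exact O1le a b h
    · have := O1le b a h
      show p.rad a + p.rad b ≤ p.dst a b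
      rw [dst_comm]
      linarith
  · intro a ha b hb hab hF hO
    replace hF : ¬ p.F a b := hF
    replace hO : ¬ p.O a b := hO
    have hF' : ¬ p.F b a := fun h => hF (F_symm h)
    have hO' : ¬ p.O b a := fun h => hO (O_symm h)
    show p.Far W a b
    have fa := vm'.form a ha
    have fb := vm'.form b hb
    rcases fa with ⟨x, y, ea⟩ | ⟨x, y, ea⟩ | ⟨x, y, ea⟩ | ea | ea
    · have h1 := (vm'.lat x y).1 (by rw [← ea]; exact ha)
      rcases fb with ⟨x', y', eb⟩ | eb | eb | eb | eb
      · have h2 := (vm'.lat x' y').1 (by rw [← eb]; exact hb)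
        subst ea
        subst eb
        refine s1 p W hp nf x y x' y' h1.1 h1.2 h2.1 h2.2 ?_ hO
        intro h
        simp only [Prod.mk.injEq] at h
        obtain ⟨rfl, rfl⟩ := h
        exact hab rfl
      · subst ea
        exact latmid x y b h1.1 h1.2 hb (Or.inl eb) hF
      · subst ea
        exact latmid x y b h1.1 h1.2 hb (Or.inr eb) hF
      · obtain ⟨i, c, hA⟩ := arm b hb (Or.inl eb)
        exact far_comm (armlat b i c a hA ha (Or.inl ⟨x, y, ea⟩) hF')
      · obtain ⟨i, c, hA⟩ := arm b hb (Or.inr eb)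
        exact far_comm (armlat b i c a hA ha (Or.inl ⟨x, y, ea⟩) hF')
    · have h1 := (vm'.hm x y).1 (by rw [← ea]; exact ha)
      rcases fb with ⟨x', y', eb⟩ | ⟨x', y', eb⟩ | ⟨x', y', eb⟩ | eb | eb
      · have h2 := (vm'.lat x' y').1 (by rw [← eb]; exact hb)
        subst eb
        exact far_comm (latmid x' y' a h2.1 h2.2 ha (Or.inl ⟨x, y, ea⟩) hF')
      · have h2 := (vm'.hm x' y').1 (by rw [← eb]; exact hb)
        subst ea
        subst eb
        refine (s3 p W hp nf x y x' y').1 h1 h2 ?_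
        intro h
        simp only [Prod.mk.injEq] at h
        obtain ⟨rfl, rfl⟩ := h
        exact hab rfl
      · have h2 := (vm'.vm x' y').1 (by rw [← eb]; exact hb)
        subst ea
        subst eb
        exact (s3 p W hp nf x y x' y').2.2 h1 h2
      · obtain ⟨i, c, hA⟩ := arm b hb (Or.inl eb)
        exact far_comm (armlat b i c a hA ha (Or.inr (Or.inl ⟨x, y, ea⟩)) hF')
      · obtain ⟨i, c, hA⟩ := arm b hb (Or.inr eb)
        exact far_comm (armlat b i c a hA ha (Or.inr (Or.inl ⟨x, y, ea⟩)) hF')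
    · have h1 := (vm'.vm x y).1 (by rw [← ea]; exact ha)
      rcases fb with ⟨x', y', eb⟩ | ⟨x', y', eb⟩ | ⟨x', y', eb⟩ | eb | eb
      · have h2 := (vm'.lat x' y').1 (by rw [← eb]; exact hb)
        subst eb
        exact far_comm (latmid x' y' a h2.1 h2.2 ha (Or.inr ⟨x, y, ea⟩) hF')
      · have h2 := (vm'.hm x' y').1 (by rw [← eb]; exact hb)
        subst ea
        subst eb
        exact far_comm ((s3 p W hp nf x' y' x y).2.2 h2 h1)
      · have h2 := (vm'.vm x' y').1 (by rw [← eb]; exact hb)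
        subst ea
        subst eb
        refine (s3 p W hp nf x y x' y').2.1 h1 h2 ?_
        intro h
        simp only [Prod.mk.injEq] at h
        obtain ⟨rfl, rfl⟩ := h
        exact hab rfl
      · obtain ⟨i, c, hA⟩ := arm b hb (Or.inl eb)
        exact far_comm (armlat b i c a hA ha (Or.inr (Or.inr ⟨x, y, ea⟩)) hF')
      · obtain ⟨i, c, hA⟩ := arm b hb (Or.inr eb)
        exact far_comm (armlat b i c a hA ha (Or.inr (Or.inr ⟨x, y, ea⟩)) hF')
    · obtain ⟨i, c, hA⟩ := arm a ha (Or.inl ea)
      rcases fb with eb | eb | eb | eb | eb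
      · exact armlat a i c b hA hb (Or.inl eb) hF
      · exact armlat a i c b hA hb (Or.inr (Or.inl eb)) hF
      · exact armlat a i c b hA hb (Or.inr (Or.inr eb)) hF
      · obtain ⟨j, d, hB⟩ := arm b hb (Or.inl eb)
        exact armarm a i c b j d hA hB hab hF hO
      · obtain ⟨j, d, hB⟩ := arm b hb (Or.inr eb)
        exact armarm a i c b j d hA hB hab hF hO
    · obtain ⟨i, c, hA⟩ := arm a ha (Or.inr ea)
      rcases fb with eb | eb | eb | eb | eb
      · exact armlat a i c b hA hb (Or.inl eb) hF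
      · exact armlat a i c b hA hb (Or.inr (Or.inl eb)) hF
      · exact armlat a i c b hA hb (Or.inr (Or.inr eb)) hF
      · obtain ⟨j, d, hB⟩ := arm b hb (Or.inl eb)
        exact armarm a i c b j d hA hB hab hF hO
      · obtain ⟨j, d, hB⟩ := arm b hb (Or.inr eb)
        exact armarm a i c b j d hA hB hab hF hO

end Pool.Agent.Helper52.ES
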