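import Pool.Agent.Helper52.ES.Gen

set_option autoImplicit false

/-! # Module GU1: closed orders are Hamiltonian cycles -/

namespace Pool.Agent.Helper52.ES

theorem gu1 : specGU1 := by
  intro α n f hn hf
  obtain ⟨m, rfl⟩ : ∃ m, n = m + 3 := ⟨n - 3, by omega⟩
  have rot : ∀ i : Fin (m + 3), finRotate (m + 3) i = i + 1 := fun i => by
    rw [finRotate_apply]
  have h1 : ∀ i : Fin (m + 3), i + 1 ≠ i := by
    intro i h
    simp at h
  have h2 : ∀ i : Fin (m + 3), i + 1 ≠ i - 1 := by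
    intro i h
    have h3 : (1 : Fin (m + 3)) + 1 = 0 := by
      have : i + 1 + 1 = i := by rw [h, sub_add_cancel]
      have h4 : i + (1 + 1) = i + 0 := by rw [← add_assoc, this, add_zero]
      exact add_left_cancel h4
    have h5 := congrArg Fin.val h3
    rw [Fin.val_add] at h5
    have h6 : ((1 : Fin (m + 3)) : ℕ) = 1 := rfl
    have h7 : ((0 : Fin (m + 3)) : ℕ) = 0 := rfl
    rw [h6, h7, Nat.mod_eq_of_lt (by omega)] at h5
    omega
  refine ⟨?_, ?_, ?_, ?_, ?_⟩
  · rintro a b ⟨i, h | h⟩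
    · exact ⟨i, Or.inr h⟩
    · exact ⟨i, Or.inl h⟩
  · rintro a b ⟨i, ⟨rfl, rfl⟩ | ⟨rfl, rfl⟩⟩ h
    · rw [rot] at h
      exact h1 i (hf h).symm
    · rw [rot] at h
      exact h1 i (hf h)
  · rintro a b ⟨i, ⟨rfl, rfl⟩ | ⟨rfl, rfl⟩⟩
    · exact ⟨i, rfl⟩
    · exact ⟨_, rfl⟩
  · rintro a ⟨i, rfl⟩
    refine ⟨f (i + 1), f (i - 1), fun h => h2 i (hf h), fun d => ⟨?_, ?_⟩⟩
    · rintro ⟨j, ⟨h3, h4⟩ | ⟨h3, h4⟩⟩
      · left
        rw [rot] at h4
        rw [← h4, hf h3]
      · right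
        rw [rot] at h4
        have : j = i - 1 := by
          have := hf h4
          rw [← this, add_sub_cancel_right]
        rw [← h3, this]
    · rintro (rfl | rfl)
      · exact ⟨i, Or.inl ⟨rfl, by rw [rot]⟩⟩
      · refine ⟨i - 1, Or.inr ⟨rfl, ?_⟩⟩
        rw [rot]
        rw [sub_add_cancel]
  · rintro S hS _ _ ⟨i, rfl⟩ ⟨j, rfl⟩ hi
    have step : ∀ k : ℕ, ∀ l : Fin (m + 3), (l : ℕ) = ((i : ℕ) + k) % (m + 3) → S (f l) := by
      intro k
      induction k with
      | zero =>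
        intro l hl
        have : l = i := by
          apply Fin.ext
          rw [hl, add_zero, Nat.mod_eq_of_lt i.2]
        rw [this]
        exact hi
      | succ k ih =>
        intro l hl
        have h3 := ih ⟨((i : ℕ) + k) % (m + 3), Nat.mod_lt _ (by omega)⟩ rfl
        refine hS _ _ ⟨_, Or.inl ⟨rfl, ?_⟩⟩ h3
        rw [rot]
        congr 1
        apply Fin.ext
        rw [hl, Fin.val_add]
        show (((i : ℕ) + k) % (m + 3) + 1) % (m + 3) = _
        rw [Nat.mod_add_mod, add_assoc]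
    refine step ((m + 3) - (i : ℕ) + (j : ℕ)) j ?_
    have : (i : ℕ) + ((m + 3) - (i : ℕ) + (j : ℕ)) = (j : ℕ) + (m + 3) := by
      have := i.2
      omega
    rw [this, Nat.add_mod_right, Nat.mod_eq_of_lt j.2]

end Pool.Agent.Helper52.ES
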