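import Pool.Agent.Helper52.ES.GM
import Pool.Agent.Helper52.ES.FK

set_option autoImplicit false

/-! # Module IJ: different vertices have different positions -/

namespace Pool.Agent.Helper52.ES

open Pool.Agent.Helper52.Grid

theorem rad_pos {p : Par} {W : ℕ} (hp : p.Ok W) (vm' : p.VM) {a : Vx} (ha : a ∈ p.V) :
    0 < p.rad a := by
  have hu : (0 : ℝ) < p.u := by unfold Par.u; positivity
  rcases vm'.form a ha with ⟨x, y, rfl⟩ | ⟨x, y, rfl⟩ | ⟨x, y, rfl⟩ | ⟨i, c, rfl⟩ | ⟨i, c, k, rfl⟩
  · unfold Par.rad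
    split_ifs <;> first | positivity | simp_all [lat]
  · simp only [Par.rad]
    norm_num
    exact_mod_cast hu
  · simp only [Par.rad]
    norm_num
    exact_mod_cast hu
  · have h1 := (vm'.ring i c).1 ha
    have h2 := (FK_r2 hp h1.1 h1.2).1
    have h3 : (2 : ℝ) ≤ p.r2 i c := by exact_mod_cast h2
    simp only [Par.rad]
    norm_num
    linarith
  · simp only [Par.rad]
    norm_num
    split_ifs <;> positivity

theorem ij (gm : specGM) (lf : specLF) : specIJ := by
  intro p W hp nf vm' fk fn
  have hM := gm p W hp nf vm' fk fn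
  refine List.Nodup.map_on ?_ vm'.nodup
  intro a ha b hb hab
  by_contra hne
  have h0 : p.dst a b = 0 := by
    unfold Par.dst Helper52.ETSP.edist
    rw [hab]
    simp
  have ra := rad_pos hp vm' ha
  have rb := rad_pos hp vm' hb
  by_cases hF : p.F a b
  · have h1 := lf p W hp nf vm' fk fn a b hF
    have h2 : (0 : ℝ) < p.l1 a b := by exact_mod_cast h1.2.1
    rw [← h1.1, h0] at h2
    exact lt_irrefl _ h2
  · by_cases hO : p.O a b
    · have h1 := hM.lenO a b hO
      change p.rad a + p.rad b ≤ p.dst a b at h1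
      linarith
    · have h1 := hM.lenN a ha b hb hne hF hO
      change p.rad a + p.rad b + ((W : ℝ) + 1) ≤ p.dst a b at h1
      have : (0 : ℝ) ≤ W := Nat.cast_nonneg _
      linarith

end Pool.Agent.Helper52.ES
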