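import Pool.Agent.Helper52.ES.Spec2

set_option autoImplicit false

/-! # Module PTC: raw data of the instance -/

namespace Pool.Agent.Helper52.ES

open Pool.Agent.Helper58 Function

theorem ptc : specPTC := by
  intro bn ptv ptx γ _ d W hd hW
  have hV := (ptv γ d hd).1
  have hFL := (ptv γ d hd).2
  -- the points
  have h1 : PTf (fun x => (par (d x)).V.map (fun a => ((false, ((par (d x)).px a).bits),
      (false, ((par (d x)).py a).bits)))) := by
    have h2 := ptx bn (γ × Vx) (fun q => d q.1) (fun q => q.2)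
      (PTf.comp hd (PTf.fst PTf.id)) (PTf.snd PTf.id)
    have h3 := (wr_nat_bits _).1 h2.1
    have h4 := (wr_nat_bits _).1 h2.2.1
    refine PTf.map hV ?_
    exact PTf.pair (PTf.pair (PTf.const false) h3) (PTf.pair (PTf.const false) h4)
  -- the sum over the forced pairs
  have h5 : PBin (fun x => (((par (d x)).FL.map fun q =>
      (⟨(par (d x)).l1 q.1 q.2⟩ : Wr ℕ)).map Wr.val).sum) := by
    refine bn.sum γ _ ?_
    refine PTf.map hFL ?_
    have e1 : PTf (fun q : γ × (Vx × Vx) => d q.1) := PTf.comp hd (PTf.fst PTf.id)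
    have e2 : PTf (fun q : γ × (Vx × Vx) => q.2.1) := PTf.fst (PTf.snd PTf.id)
    have e3 : PTf (fun q : γ × (Vx × Vx) => q.2.2) := PTf.snd (PTf.snd PTf.id)
    have a := ptx bn (γ × (Vx × Vx)) (fun q => d q.1) (fun q => q.2.1) e1 e2
    have b := ptx bn (γ × (Vx × Vx)) (fun q => d q.1) (fun q => q.2.2) e1 e3
    exact bn.add _ _ _ (bn.add _ _ _ (bn.sub _ _ _ a.1 b.1) (bn.sub _ _ _ b.1 a.1))
      (bn.add _ _ _ (bn.sub _ _ _ a.2.1 b.2.1) (bn.sub _ _ _ b.2.1 a.2.1))
  -- the sum over the vertices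
  have h6 : PBin (fun x => (((par (d x)).V.map fun a =>
      (⟨(par (d x)).one a⟩ : Wr ℕ)).map Wr.val).sum) := by
    refine bn.sum γ _ ?_
    refine PTf.map hV ?_
    exact (ptx bn (γ × Vx) (fun q => d q.1) (fun q => q.2)
      (PTf.comp hd (PTf.fst PTf.id)) (PTf.snd PTf.id)).2.2
  have h7 := bn.add γ _ _ (bn.add γ _ _ h5 h6) (bn.un γ W hW)
  refine PTf.pair h1 ?_
  refine ((wr_nat_bits _).1 h7).congr (fun x => ?_)
  rw [List.map_map, List.map_map]
  rfl

end Pool.Agent.Helper52.ES
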