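import Pool.Agent.Helper52.ES.Spec
import Pool.Agent.Helper52.Grid.Reduce

set_option autoImplicit false

/-! # Module RC: completeness with the right ends of the rows -/

namespace Pool.Agent.Helper52.ES

open Pool.Agent.Helper52.Grid

theorem rc : specRC := by
  intro φ M a hb hsat
  obtain ⟨ch, hch⟩ := Helper99.Grid.choice φ a hsat
  have hB := Helper99.Grid.subs_bound hb
  obtain ⟨d1, d2, d3⟩ := Helper58.Grid.deg (subs φ) M a ch hB Helper99.Grid.subs_zero hch
  have hC2 := Helper31.Grid.s_Conn (subs φ) M a ch hB Helper99.Grid.subs_zero hch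
  refine ⟨hUse (subs φ) M a ch, vUse (subs φ) M a ch, ?_, ?_⟩
  · refine ⟨?_, ?_, ?_, ?_, d1, d2, d3, ?_⟩
    · intro x y h
      unfold hUse
      rw [if_pos h]
    · intro x y h h'
      unfold hUse
      rw [if_neg h, if_neg h']
    · intro x y h
      unfold vUse
      rw [if_pos h]
    · intro x y h h'
      unfold vUse
      rw [if_neg h, if_neg h']
    · intro S hS1 hS2 p q hp hq hSp
      exact (hC2 S hS1 hS2 q hq).2 ((hC2 S hS1 hS2 p hp).1 hSp)
  · intro i hi
    have e1 : (7 + 6 * i - 4) / 6 = i := by omega
    have e2 : (7 + 6 * i - 4) % 6 = 3 := by omega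
    have hv : vC (subs φ) M (5 + 4 * (subs φ).length) (7 + 6 * i) = 2 := by
      unfold vC
      rw [if_neg (by omega), e1, if_pos hi, if_neg (by omega), if_neg (by omega), e2,
        show 5 + 4 * (subs φ).length - (5 + 4 * (subs φ).length) = 0 by omega]
      rfl
    have hO : vO (subs φ) a ch (5 + 4 * (subs φ).length) (7 + 6 * i) = a i := by
      unfold vO
      rw [if_neg (by omega), e1, if_neg (by omega), if_neg (by omega)]
      unfold bst
      have h1 : cnt (subs φ) i (subs φ).length % 2 = 0 := by
        rw [Helper58.Grid.cnt_eq, List.take_length]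
        exact Helper58.Grid.cn_subs i φ
      rw [h1]
      simp
    unfold vUse
    rw [hv, if_neg (by omega), if_pos rfl, hO]

end Pool.Agent.Helper52.ES
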