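import Pool.Agent.Helper52.ES.Spec

set_option autoImplicit false

/-! # Module VM: the list of the vertices -/

namespace Pool.Agent.Helper52.ES

open Pool.Agent.Helper52.Grid

theorem VM_cell (p : Par) (x y : ℕ) (a : Vx) : a ∈ p.vcell x y ↔
    (0 < p.fd x y ∧ p.hub x y = false ∧ a = lat x y) ∨ (p.h x y = 0 ∧ a = hm x y) ∨
      (p.v x y = 0 ∧ a = vm x y) := by
  unfold Par.vcell
  have mem_ite : ∀ (P : Prop) [Decidable P] (c : Vx), (a ∈ (if P then [c] else []))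
      ↔ P ∧ a = c := by
    intro P _ c
    by_cases hP : P <;> simp [hP]
  rw [List.mem_append, List.mem_append, mem_ite, mem_ite, mem_ite, and_assoc]

theorem VM_arm (p : Par) (i c : ℕ) (a : Vx) : a ∈ p.varm i c ↔
    a = ring i c ∨ ∃ k, k < p.e + 3 ∧ p.cn i c k = true ∧ a = coin i c k := by
  unfold Par.varm
  rw [List.mem_cons, List.mem_map]
  refine or_congr Iff.rfl (exists_congr fun k => ?_)
  rw [List.mem_filter, List.mem_range, and_assoc]
  exact and_congr Iff.rfl (and_congr Iff.rfl eq_comm)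

theorem VM_V (p : Par) (a : Vx) : a ∈ p.V ↔
    (∃ x < p.K0 + 2, ∃ y < 6 * p.rows + 5, a ∈ p.vcell x y) ∨
      (∃ i < p.rows, ∃ c < 4, a ∈ p.varm i c) := by
  unfold Par.V
  rw [List.mem_append, List.mem_flatMap, List.mem_flatMap]
  refine or_congr (exists_congr fun x => ?_) (exists_congr fun x => ?_)
  · rw [List.mem_flatMap, List.mem_range]
    refine and_congr Iff.rfl (exists_congr fun y => ?_)
    rw [List.mem_range]
  · rw [List.mem_flatMap, List.mem_range]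
    refine and_congr Iff.rfl (exists_congr fun y => ?_)
    rw [List.mem_range]

theorem VM_cell_nodup (p : Par) (x y : ℕ) : (p.vcell x y).Nodup := by
  unfold Par.vcell
  split_ifs <;> simp [lat, hm, vm]

theorem VM_arm_nodup (p : Par) (i c : ℕ) : (p.varm i c).Nodup := by
  unfold Par.varm
  rw [List.nodup_cons]
  constructor
  · rw [List.mem_map]
    rintro ⟨k, -, h⟩
    simp [coin, ring] at h
  · refine List.Nodup.map ?_ (List.Nodup.filter _ List.nodup_range)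
    intro a b h
    simpa [coin] using h

theorem VM_nodup (p : Par) : p.V.Nodup := by
  unfold Par.V
  rw [List.nodup_append']
  refine ⟨?_, ?_, ?_⟩
  · rw [List.nodup_flatMap]
    constructor
    · intro x _
      rw [List.nodup_flatMap]
      refine ⟨fun y _ => VM_cell_nodup p x y, List.Pairwise.imp ?_ List.nodup_range⟩
      intro y y' hyy a h1 h2
      rw [VM_cell] at h1 h2
      rcases h1 with ⟨-, -, rfl⟩ | ⟨-, rfl⟩ | ⟨-, rfl⟩ <;>
        rcases h2 with ⟨-, -, h⟩ | ⟨-, h⟩ | ⟨-, h⟩ <;> simp [lat, hm, vm] at h <;> exact hyy h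
    · refine List.Pairwise.imp ?_ List.nodup_range
      intro x x' hxx a h1 h2
      rw [List.mem_flatMap] at h1 h2
      obtain ⟨y, -, h1⟩ := h1
      obtain ⟨y', -, h2⟩ := h2
      rw [VM_cell] at h1 h2
      rcases h1 with ⟨-, -, rfl⟩ | ⟨-, rfl⟩ | ⟨-, rfl⟩ <;>
        rcases h2 with ⟨-, -, h⟩ | ⟨-, h⟩ | ⟨-, h⟩ <;> simp [lat, hm, vm] at h <;> exact hxx h.1
  · rw [List.nodup_flatMap]
    constructor
    · intro i _
      rw [List.nodup_flatMap]
      refine ⟨fun c _ => VM_arm_nodup p i c, List.Pairwise.imp ?_ List.nodup_range⟩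
      intro y y' hyy a h1 h2
      rw [VM_arm] at h1 h2
      rcases h1 with rfl | ⟨k, -, -, rfl⟩ <;> rcases h2 with h | ⟨k', -, -, h⟩ <;>
        simp [ring, coin] at h
      · exact hyy h
      · exact hyy h.1
    · refine List.Pairwise.imp ?_ List.nodup_range
      intro x x' hxx a h1 h2
      rw [List.mem_flatMap] at h1 h2
      obtain ⟨y, -, h1⟩ := h1
      obtain ⟨y', -, h2⟩ := h2
      rw [VM_arm] at h1 h2
      rcases h1 with rfl | ⟨k, -, -, rfl⟩ <;> rcases h2 with h | ⟨k', -, -, h⟩ <;>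
        simp [ring, coin] at h
      · exact hxx h.1
      · exact hxx h.1
  · intro a h1 h2
    rw [List.mem_flatMap] at h1 h2
    obtain ⟨x, -, h1⟩ := h1
    obtain ⟨i, -, h2⟩ := h2
    rw [List.mem_flatMap] at h1 h2
    obtain ⟨y, -, h1⟩ := h1
    obtain ⟨c, -, h2⟩ := h2
    rw [VM_cell] at h1
    rw [VM_arm] at h2
    rcases h1 with ⟨-, -, rfl⟩ | ⟨-, rfl⟩ | ⟨-, rfl⟩ <;>
      rcases h2 with h | ⟨k', -, -, h⟩ <;> simp [ring, coin, lat, hm, vm] at h

theorem vm' : specVM := by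
  intro p W hp nf
  refine ⟨VM_nodup p, ?_, ?_, ?_, ?_, ?_, ?_⟩
  · intro x y
    rw [VM_V]
    constructor
    · rintro (⟨x', -, y', -, h⟩ | ⟨i, -, c, -, h⟩)
      · rw [VM_cell] at h
        rcases h with ⟨h1, h2, h3⟩ | ⟨-, h3⟩ | ⟨-, h3⟩ <;> simp [lat, hm, vm] at h3
        obtain ⟨rfl, rfl⟩ := h3
        exact ⟨by omega, h2⟩
      · rw [VM_arm] at h
        rcases h with h | ⟨k, -, -, h⟩ <;> simp [ring, coin, lat] at h
    · rintro ⟨h1, h2⟩
      have hb := nf.box x y h1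
      refine Or.inl ⟨x, by omega, y, by omega, ?_⟩
      rw [VM_cell]
      exact Or.inl ⟨by omega, h2, rfl⟩
  · intro x y
    rw [VM_V]
    constructor
    · rintro (⟨x', -, y', -, h⟩ | ⟨i, -, c, -, h⟩)
      · rw [VM_cell] at h
        rcases h with ⟨h1, h2, h3⟩ | ⟨h1, h3⟩ | ⟨-, h3⟩ <;> simp [lat, hm, vm] at h3
        obtain ⟨rfl, rfl⟩ := h3
        exact h1
      · rw [VM_arm] at h
        rcases h with h | ⟨k, -, -, h⟩ <;> simp [ring, coin, hm] at h
    · intro h1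
      have hb := nf.boxh x y h1
      refine Or.inl ⟨x, by omega, y, by omega, ?_⟩
      rw [VM_cell]
      exact Or.inr (Or.inl ⟨h1, rfl⟩)
  · intro x y
    rw [VM_V]
    constructor
    · rintro (⟨x', -, y', -, h⟩ | ⟨i, -, c, -, h⟩)
      · rw [VM_cell] at h
        rcases h with ⟨h1, h2, h3⟩ | ⟨h1, h3⟩ | ⟨h1, h3⟩ <;> simp [lat, hm, vm] at h3
        obtain ⟨rfl, rfl⟩ := h3
        exact h1
      · rw [VM_arm] at h
        rcases h with h | ⟨k, -, -, h⟩ <;> simp [ring, coin, vm] at h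
    · intro h1
      have hb := nf.boxv x y h1
      refine Or.inl ⟨x, by omega, y, by omega, ?_⟩
      rw [VM_cell]
      exact Or.inr (Or.inr ⟨h1, rfl⟩)
  · intro i c
    rw [VM_V]
    constructor
    · rintro (⟨x', -, y', -, h⟩ | ⟨i', hi, c', hc, h⟩)
      · rw [VM_cell] at h
        rcases h with ⟨h1, h2, h3⟩ | ⟨h1, h3⟩ | ⟨h1, h3⟩ <;> simp [lat, hm, vm, ring] at h3
      · rw [VM_arm] at h
        rcases h with h | ⟨k, -, -, h⟩ <;> simp [ring, coin] at h
        obtain ⟨rfl, rfl⟩ := h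
        exact ⟨hi, hc⟩
    · rintro ⟨h1, h2⟩
      exact Or.inr ⟨i, h1, c, h2, (VM_arm _ _ _ _).2 (Or.inl rfl)⟩
  · intro i c k
    rw [VM_V]
    constructor
    · rintro (⟨x', -, y', -, h⟩ | ⟨i', hi, c', hc, h⟩)
      · rw [VM_cell] at h
        rcases h with ⟨h1, h2, h3⟩ | ⟨h1, h3⟩ | ⟨h1, h3⟩ <;> simp [lat, hm, vm, coin] at h3
      · rw [VM_arm] at h
        rcases h with h | ⟨k', hk1, hk2, h⟩ <;> simp [ring, coin] at h
        obtain ⟨rfl, rfl, rfl⟩ := h
        exact ⟨hi, hc, hk1, hk2⟩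
    · rintro ⟨h1, h2, h3, h4⟩
      exact Or.inr ⟨i, h1, c, h2, (VM_arm _ _ _ _).2 (Or.inr ⟨k, h3, h4, rfl⟩)⟩
  · intro a ha
    rw [VM_V] at ha
    rcases ha with ⟨x, -, y, -, h⟩ | ⟨i, hi, c, hc, h⟩
    · rw [VM_cell] at h
      rcases h with ⟨-, -, rfl⟩ | ⟨-, rfl⟩ | ⟨-, rfl⟩
      · exact Or.inl ⟨x, y, rfl⟩
      · exact Or.inr (Or.inl ⟨x, y, rfl⟩)
      · exact Or.inr (Or.inr (Or.inl ⟨x, y, rfl⟩))
    · rw [VM_arm] at h
      rcases h with rfl | ⟨k, -, -, rfl⟩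
      · exact Or.inr (Or.inr (Or.inr (Or.inl ⟨i, c, rfl⟩)))
      · exact Or.inr (Or.inr (Or.inr (Or.inr ⟨i, c, k, rfl⟩)))

end Pool.Agent.Helper52.ES
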