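import Pool.Agent.Helper52.ES.G
import Pool.Agent.Helper52.ES.Fin
import Pool.Agent.Helper52.ES.FK
import Pool.Agent.Helper52.ES.VM
import Pool.Agent.Helper52.ES.GC
import Pool.Agent.Helper52.ES.GM
import Pool.Agent.Helper52.ES.GU1
import Pool.Agent.Helper52.ES.IJ
import Pool.Agent.Helper52.ES.LINK
import Pool.Agent.Helper52.ES.PTC
import Pool.Agent.Helper52.ES.RC
import Pool.Agent.Helper16.ES.Arm
import Pool.Agent.Helper16.ES.DL
import Pool.Agent.Helper18.ES.TR1
import Pool.Agent.Helper19.ES.EQ1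
import Pool.Agent.Helper19.ES.FN
import Pool.Agent.Helper26.ES.MEM2
import Pool.Agent.Helper26.ES.PTV
import Pool.Agent.Helper27.ES.PTX
import Pool.Agent.Helper33.ES.RS
import Pool.Agent.Helper34.ES.LF
import Pool.Agent.Helper45.ES.LA
import Pool.Agent.Helper53.ES.CW
import Pool.Agent.Helper56.ES.TR2
import Pool.Agent.Helper59.ES.S5
import Pool.Agent.Helper59.ES.S8
import Pool.Agent.Helper63.ES.GU2
import Pool.Agent.Helper63.ES.MEM1
import Pool.Agent.Helper76.ES.NF
import Pool.Agent.Helper77.ES.BN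
import Pool.Agent.Helper96.ES.LO
import Pool.Agent.Helper96.ES.S1

set_option autoImplicit false

/-! # Completeness of EXACT EUCLIDEAN TSP -/

namespace Pool.Agent.Helper52.ES

open Pool.Agent.Helper52.ETSP (Instance)

theorem complete (α : Type) [Poly.Enc α]
    (hinj : Function.Injective (Poly.code : α → List Bool)) (L : α → Prop) : ESR L ↔ Reduces L Instance.Yes := by
  have : EncI α := encI_of hinj
  have gm' : specGM := gm Helper96.ES.s1 Helper96.ES.s2 Helper96.ES.s3 Helper16.ES.S4
    Helper59.ES.S5 Helper16.ES.S6 Helper96.ES.s7 Helper59.ES.S8 Helper34.ES.lf Helper96.ES.lo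
  constructor
  · exact hard Helper76.ES.nf vm' fk Helper19.ES.FN (ij gm' Helper34.ES.lf)
      (G Helper76.ES.nf vm' fk Helper19.ES.FN gc gm' (Helper45.ES.la Helper34.ES.lf) Helper96.ES.lo Helper18.ES.TR1
        Helper56.ES.tr2 Helper33.ES.rs rc gu1 Helper63.ES.gu2 Helper16.ES.DL1 Helper16.ES.DL2)
      link bn Helper53.ES.cw (Helper26.ES.ptv bn)
      Helper27.ES.ptx ptc Helper19.ES.EQ1
  · intro h
    exact closed link h (memb link bn Helper63.ES.mem1 Helper26.ES.mem2)

end Pool.Agent.Helper52.ES
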