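import Mathlib
import Pool.Agent.Helper52.Poly.ClassDefs
import Pool.Agent.Helper52.ETSP.CDefs

set_option autoImplicit false

/-! # Selection problems with Euclidean weights, and reductions -/

namespace Pool.Agent.Helper52.ES

open Pool.Agent.Helper52.Poly (Enc code)
open Pool.Agent.Helper52.ETSP (nrm)

/-- `f` is computable by a Turing machine in time polynomial in the length of the bit string
coding the input. -/
def PolyTime {α β : Type} [Enc α] [Enc β] (f : α → β) : Prop :=
  Nonempty (Turing.TM2ComputableInPolyTime (code : α → List Bool) (code : β → List Bool) f)

/-- The decision problem `L` is reducible to the decision problem `L'` by a polynomial-time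
many-one reduction. -/
def Reduces {α β : Type} [Enc α] [Enc β] (L : α → Prop) (L' : β → Prop) : Prop :=
  ∃ f : α → β, PolyTime f ∧ ∀ a, L a ↔ L' (f a)

/-- The total Euclidean length of the vectors of the list `l` which are selected by the bit string
`w`, as an exact real number. -/
noncomputable def sel (l : List (ℕ × ℕ)) (w : List Bool) : ℝ :=
  ((l.zip w).map fun q => if q.2 = true then nrm q.1 else 0).sum

/-- Existential square-root-sum problems: an input `a` determines in polynomial time a list
`vec a` of integer vectors and a bound `bnd a`; the yes-instances are the inputs `a` for which some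
bit string `w`, with one bit for each vector, is accepted together with `a` by the polynomial-time
verifier `ver`, while the total Euclidean length of the selected vectors is at most `bnd a`. -/
def ESR {α : Type} [Enc α] (L : α → Prop) : Prop :=
  ∃ (vec : α → List (ℕ × ℕ)) (bnd : α → ℕ) (ver : α × List Bool → Bool),
    PolyTime vec ∧ PolyTime bnd ∧ PolyTime ver ∧
    ∀ a, L a ↔ ∃ w : List Bool, w.length = (vec a).length ∧ ver (a, w) = true ∧
      sel (vec a) w ≤ bnd a

end Pool.Agent.Helper52.ES
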