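import Pool.Agent.Helper52.ES.Spec

set_option autoImplicit false

/-! # The instance of a drawing -/

namespace Pool.Agent.Helper52.ES

open Pool.Agent.Helper52.Grid
open Pool.Agent.Helper52.ETSP (Instance)

open Classical in
theorem G (nf : specNF) (vm : specVM) (fk : specFK) (fn : specFN) (gc : specGC) (gm : specGM)
    (la : specLA) (lo : specLO) (tr1 : specTR1) (tr2 : specTR2) (rs : specRS) (rc : specRC)
    (gu1 : specGU1) (gu2 : specGU2) (dl1 : specDL1) (dl2 : specDL2) : specG := by
  intro p W φ I hp hs hφ hpt hB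
  have hNF := nf p W hp
  have hVM := vm p W hp hNF
  have hFK := fk p W hp
  have hFN := fn p W hp hNF hVM hFK
  have hC := gc p W hp hNF hVM hFK hFN
  have hM := gm p W hp hNF hVM hFK hFN
  have hL := la p W hp hNF hVM hFK hFN
  have hlo := lo p W hp hNF
  have hrow : ∀ c ∈ φ, ∀ l ∈ c, l.1 < 2 * p.M + 1 := hφ
  -- the enumeration of the vertices
  have hlen : p.V.length = I.n := by
    have := congrArg List.length hpt
    rw [List.length_ofFn, List.length_map] at this
    exact this.symm
  set g : Fin I.n → Vx := fun i => p.V.get (i.cast hlen.symm) with hg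
  have hgi : Function.Injective g := by
    intro i j hij
    have h1 := List.nodup_iff_injective_get.1 hVM.nodup hij
    exact Fin.ext (by simpa using congrArg Fin.val h1)
  have hgr : ∀ a, a ∈ p.V ↔ ∃ i, g i = a := by
    intro a
    constructor
    · intro ha
      obtain ⟨i, hi⟩ := List.mem_iff_get.1 ha
      exact ⟨i.cast hlen, hi⟩
    · rintro ⟨i, rfl⟩
      exact List.get_mem _ _
  have hgp : ∀ i, I.pt i = p.pos (g i) := by
    intro i
    have h1 : (List.ofFn I.pt)[(i : ℕ)]? = some (I.pt i) := by
      rw [List.getElem?_ofFn]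
      simp
    rw [hpt, List.getElem?_map] at h1
    have h2 : p.V[(i : ℕ)]? = some (g i) := by
      rw [List.getElem?_eq_getElem (by omega)]
      rfl
    rw [h2] at h1
    simpa using h1.symm
  have hring : ∀ i < p.rows, ∀ c < 4, ring i c ∈ p.V := fun i hi c hc => (hVM.ring i c).2 ⟨hi, hc⟩
  have hrows : 0 < p.rows := by unfold Par.rows; omega
  have hn0 : 0 < I.n := by
    rw [← hlen]
    exact List.length_pos_of_mem (hring 0 hrows 0 (by omega))
  have hperm : ∀ σ : Equiv.Perm (Fin I.n), Function.Injective (fun i => g (σ i)) :=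
    fun σ => hgi.comp σ.injective
  have hran : ∀ (σ : Equiv.Perm (Fin I.n)) a, a ∈ p.V ↔ ∃ i, g (σ i) = a := by
    intro σ a
    rw [hgr]
    exact ⟨fun ⟨i, hi⟩ => ⟨σ.symm i, by simpa using hi⟩, fun ⟨i, hi⟩ => ⟨σ i, hi⟩⟩
  have hlenσ : ∀ σ : Equiv.Perm (Fin I.n), I.len σ =
      ∑ i, (p.net W).len (g (σ i)) (g (σ (finRotate I.n i))) := by
    intro σ
    unfold Instance.len
    refine Finset.sum_congr rfl (fun i _ => ?_)
    rw [hgp, hgp]
    rfl
  have hn3 : 3 ≤ I.n := by
    rw [← hlen]
    have h1 : [ring 0 0, ring 0 1, ring 0 2] ⊆ p.V := by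
      intro a ha
      simp only [List.mem_cons, List.not_mem_nil, or_false] at ha
      rcases ha with rfl | rfl | rfl
      · exact hring 0 hrows 0 (by omega)
      · exact hring 0 hrows 1 (by omega)
      · exact hring 0 hrows 2 (by omega)
    have h2 : ([ring 0 0, ring 0 1, ring 0 2] : List Vx).Nodup := by decide
    exact (List.subperm_of_subset h2 h1).length_le
  -- the length of a tour of the drawing
  have key : ∀ σ : Equiv.Perm (Fin I.n),
      (∀ a b, Cyc (fun i => g (σ i)) a b → p.F a b ∨ p.O a b) →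
      (∀ a b, p.F a b → Cyc (fun i => g (σ i)) a b) →
      I.len σ = p.Lam + ∑ i ∈ Finset.range p.rows,
        (if Cyc (fun i => g (σ i)) (ring i 1) (ring i 2) then p.om i else 0) := by
    intro σ h1 h2
    rw [hlenσ, ← hL]
    refine dl2 Vx (p.net W) I.n (fun i => g (σ i)) hC hM hn3 (hperm σ) (hran σ) h1 h2
      p.rows (fun i => ring i 1) (fun i => ring i 2) p.om ?_ ?_ ?_ ?_ ?_ ?_
    · intro i _ j _ h
      simpa using h
    · intro i _ j _ h
      simpa using h
    · intro i _ j _ h
      simp at h
    · intro i hi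
      exact Or.inl (Par.O1.rin i 1 hi (by omega))
    · intro i hi
      exact (hlo.2.2 i hi).2.2.2.1
    · have hO1 : ∀ a b, p.O1 a b → (∀ i < p.rows, ¬ (a = ring i 1 ∧ b = ring i 2)) →
          p.dst a b = p.rad a + p.rad b := by
        intro a b hab hne
        cases hab with
        | hor x y hx hh => exact hlo.1 x y hh
        | ver x y hx hh => exact hlo.2.1 x y hh
        | rin i c hi hc =>
          have h3 := hlo.2.2 i hi
          have hc' : c = 0 ∨ c = 1 ∨ c = 2 ∨ c = 3 := by omega
          rcases hc' with rfl | rfl | rfl | rfl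
          · exact h3.1
          · exact absurd ⟨rfl, rfl⟩ (hne i hi)
          · exact h3.2.1
          · exact h3.2.2.1
      intro a b hab hne
      rcases hab with hab | hab
      · exact hO1 a b hab (fun i hi => (hne i hi).1)
      · have h4 := hO1 b a hab (fun i hi h => (hne i hi).2 ⟨h.2, h.1⟩)
        show (p.net W).len a b = (p.net W).rad a + (p.net W).rad b
        rw [hM.symL, add_comm]
        exact h4
  constructor
  · rintro ⟨σ, hσ⟩
    rw [hB] at hσ
    have h1 := dl1 Vx (p.net W) I.n (fun i => g (σ i)) W hC hM hn3 (hperm σ) (hran σ) (by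
      rw [← hlenσ, hL]
      push_cast at hσ
      exact hσ) (by
      show (W : ℝ) < (W : ℝ) + 1
      linarith)
    have h2 : Ham (fun a => a ∈ p.V) (Cyc (fun i => g (σ i))) := by
      have := gu1 Vx I.n (fun i => g (σ i)) hn3 (hperm σ)
      have e : (fun a => a ∈ p.V) = (fun a => ∃ i, g (σ i) = a) := by
        funext a
        exact propext (hran σ a)
      rw [e]
      exact this
    obtain ⟨hU, vU, hUse, hr⟩ := tr1 p W _ hp hNF hVM hFK hFN h2 h1.2 h1.1
    rw [hs] at hUse
    obtain ⟨a, ha, hai⟩ := rs φ p.M hU vU hrow hUse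
    refine ⟨a, ha, ?_⟩
    have h3 := key σ h1.1 h1.2
    have h4 : ∀ i ∈ Finset.range p.rows, (if a i = true then p.om i else 0) =
        (if Cyc (fun i => g (σ i)) (ring i 1) (ring i 2) then p.om i else 0) := by
      intro i hi
      rw [Finset.mem_range] at hi
      have h5 := hai i hi
      have h6 := hr i hi
      unfold Par.K0 at h6
      rw [hs, h5] at h6
      by_cases h7 : a i = true
      · rw [if_pos h7, if_pos (h6.1 h7)]
      · rw [if_neg h7, if_neg (fun h => h7 (h6.2 h))]
    rw [Finset.sum_congr rfl h4]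
    push_cast at hσ
    linarith
  · rintro ⟨a, ha, hW⟩
    obtain ⟨hU, vU, hUse, hai⟩ := rc φ p.M a hrow ha
    rw [← hs] at hUse
    obtain ⟨E, hE, hE1, hE2, hr⟩ := tr2 p W hU vU hp hNF hVM hFK hFN hUse
    have e : (fun a => a ∈ p.V) = (fun a => ∃ i, g i = a) := by
      funext a
      exact propext (hgr a)
    rw [e] at hE
    obtain ⟨-, σ, hσ⟩ := gu2 Vx I.n g E hn0 hgi hE
    refine ⟨σ, ?_⟩
    rw [hB, key σ (fun a b h => hE2 a b ((hσ a b).2 h)) (fun a b h => (hσ a b).1 (hE1 a b h))]
    have h4 : ∀ i ∈ Finset.range p.rows,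
        (if Cyc (fun i => g (σ i)) (ring i 1) (ring i 2) then p.om i else 0) =
        (if a i = true then p.om i else 0) := by
      intro i hi
      rw [Finset.mem_range] at hi
      have h5 := hai i hi
      have h6 := hr i hi
      unfold Par.K0 at h6
      rw [hs, h5, hσ] at h6
      by_cases h7 : a i = true
      · rw [if_pos h7, if_pos (h6.1 h7)]
      · rw [if_neg h7, if_neg (fun h => h7 (h6.2 h))]
    rw [Finset.sum_congr rfl h4]
    push_cast
    linarith

end Pool.Agent.Helper52.ES
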