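import Mathlib

set_option autoImplicit false

/-! # Hamiltonian cycles and double counting (general part) -/

namespace Pool.Agent.Helper52.ES

variable {α : Type}

/-- `a`, `b` are neighbours in the closed order `f 0, f 1, ..., f (n - 1), f 0` -/
def Cyc {n : ℕ} (f : Fin n → α) (a b : α) : Prop :=
  ∃ i, (f i = a ∧ f (finRotate n i) = b) ∨ (f i = b ∧ f (finRotate n i) = a)

/-- `E` is the neighbour relation of a Hamiltonian cycle on the set `V` (with at least three
vertices) -/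
structure Ham (V : α → Prop) (E : α → α → Prop) : Prop where
  symm : ∀ a b, E a b → E b a
  ne : ∀ a b, E a b → a ≠ b
  mem : ∀ a b, E a b → V a
  two : ∀ a, V a → ∃ b c, b ≠ c ∧ ∀ d, E a d ↔ (d = b ∨ d = c)
  conn : ∀ S : α → Prop, (∀ a b, E a b → S a → S b) → ∀ a b, V a → V b → S a → S b

/-- (GU1) closed orders are Hamiltonian cycles -/
def specGU1 : Prop := ∀ (α : Type) (n : ℕ) (f : Fin n → α), 3 ≤ n → Function.Injective f →
  Ham (fun a => ∃ i, f i = a) (Cyc f)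

/-- (GU2) Hamiltonian cycles are closed orders -/
def specGU2 : Prop := ∀ (α : Type) (n : ℕ) (f : Fin n → α) (E : α → α → Prop), 0 < n →
  Function.Injective f → Ham (fun a => ∃ i, f i = a) E →
  3 ≤ n ∧ ∃ σ : Equiv.Perm (Fin n), ∀ a b, E a b ↔ Cyc (fun i => f (σ i)) a b

/-- vertices, forced pairs (each in one direction), optional pairs, lengths, radii, gap -/
structure Net (α : Type) where
  V : List α
  FL : List (α × α)
  O : α → α → Prop
  len : α → α → ℝ
  rad : α → ℝ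
  gap : ℝ

namespace Net

variable (N : Net α)

/-- the forced pairs -/
def F (a b : α) : Prop := (a, b) ∈ N.FL ∨ (b, a) ∈ N.FL

/-- two forced neighbours -/
def Two (a : α) : Prop := ∃ b c, b ≠ c ∧ N.F a b ∧ N.F a c

open Classical in
/-- the length of a tour without excess -/
noncomputable def Lam : ℝ :=
  (N.FL.map fun q => N.len q.1 q.2).sum + (N.V.map fun a => if N.Two a then 0 else N.rad a).sum

/-- the combinatorial conditions -/
structure GoodC : Prop where
  nodupV : N.V.Nodup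
  nodupF : N.FL.Nodup
  anti : ∀ a b, (a, b) ∈ N.FL → (b, a) ∉ N.FL
  memF : ∀ a b, (a, b) ∈ N.FL → a ∈ N.V ∧ b ∈ N.V ∧ a ≠ b
  memO : ∀ a b, N.O a b → a ∈ N.V ∧ b ∈ N.V ∧ a ≠ b
  symO : ∀ a b, N.O a b → N.O b a
  some : ∀ a ∈ N.V, ∃ b, N.F a b
  most : ∀ a b c d, N.F a b → N.F a c → N.F a d → b = c ∨ b = d ∨ c = d
  twoO : ∀ a b, N.Two a → ¬ N.O a b
  rigid : ∀ a b, N.F a b → N.Two a ∨ N.Two b

/-- the metric conditions -/
structure GoodM : Prop where
  gap0 : 0 < N.gap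
  symL : ∀ a b, N.len a b = N.len b a
  lenF : ∀ a b, N.F a b → N.len a b ≤ N.rad a + N.rad b
  lenO : ∀ a b, N.O a b → N.rad a + N.rad b ≤ N.len a b
  lenN : ∀ a ∈ N.V, ∀ b ∈ N.V, a ≠ b → ¬ N.F a b → ¬ N.O a b →
    N.rad a + N.rad b + N.gap ≤ N.len a b

end Net

/-- (DL1) a tour which is not longer than `Λ` plus less than the gap uses only forced and optional
pairs, and all forced pairs -/
def specDL1 : Prop := ∀ (α : Type) (N : Net α) (n : ℕ) (f : Fin n → α) (W : ℝ), N.GoodC →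
  N.GoodM → 3 ≤ n → Function.Injective f → (∀ a, a ∈ N.V ↔ ∃ i, f i = a) →
  ∑ i, N.len (f i) (f (finRotate n i)) ≤ N.Lam + W → W < N.gap →
  (∀ a b, Cyc f a b → N.F a b ∨ N.O a b) ∧ (∀ a b, N.F a b → Cyc f a b)

open Classical in
/-- (DL2) the length of such a tour; `x i`, `y i` (`i < R`) are the optional pairs with excess
`w i` -/
def specDL2 : Prop := ∀ (α : Type) (N : Net α) (n : ℕ) (f : Fin n → α), N.GoodC →
  N.GoodM → 3 ≤ n → Function.Injective f → (∀ a, a ∈ N.V ↔ ∃ i, f i = a) →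
  (∀ a b, Cyc f a b → N.F a b ∨ N.O a b) → (∀ a b, N.F a b → Cyc f a b) →
  ∀ (R : ℕ) (x y : ℕ → α) (w : ℕ → ℝ),
  (∀ i < R, ∀ j < R, x i = x j → i = j) → (∀ i < R, ∀ j < R, y i = y j → i = j) →
  (∀ i < R, ∀ j < R, x i ≠ y j) → (∀ i < R, N.O (x i) (y i)) →
  (∀ i < R, N.len (x i) (y i) = N.rad (x i) + N.rad (y i) + w i) →
  (∀ a b, N.O a b → (∀ i < R, ¬ (a = x i ∧ b = y i) ∧ ¬ (a = y i ∧ b = x i)) →
    N.len a b = N.rad a + N.rad b) →
  ∑ i, N.len (f i) (f (finRotate n i)) =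
    N.Lam + ∑ i ∈ Finset.range R, (if Cyc f (x i) (y i) then w i else 0)

end Pool.Agent.Helper52.ES
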