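import Pool.Agent.Helper52.ES.Defs
import Pool.Agent.Helper52.ES.Gen

set_option autoImplicit false

/-! # Statements of the modules about the drawing -/

namespace Pool.Agent.Helper52.ES

open Pool.Agent.Helper52.Grid
open Pool.Agent.Helper52.ETSP (Instance)

/-! ### the formula graph -/

/-- (RS) soundness, with the right ends of the rows -/
def specRS : Prop := ∀ (φ : CNF) (M : ℕ) (hU vU : ℕ → ℕ → Bool),
  (∀ c ∈ φ, ∀ l ∈ c, l.1 < 2 * M + 1) → Use (hC (subs φ) M) (vC (subs φ) M) hU vU →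
  ∃ a, φ.Sat a ∧ ∀ i < 2 * M + 1, vU (5 + 4 * (subs φ).length) (7 + 6 * i) = a i

/-- (RC) completeness, with the right ends of the rows -/
def specRC : Prop := ∀ (φ : CNF) (M : ℕ) (a : ℕ → Bool),
  (∀ c ∈ φ, ∀ l ∈ c, l.1 < 2 * M + 1) → φ.Sat a →
  ∃ hU vU, Use (hC (subs φ) M) (vC (subs φ) M) hU vU ∧
    ∀ i < 2 * M + 1, vU (5 + 4 * (subs φ).length) (7 + 6 * i) = a i

/-! ### local facts on the costs `p.h`, `p.v` -/

/-- local facts (all of them have been checked by computer for thousands of formulas) -/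
structure Par.NF (p : Par) : Prop where
  h3 : ∀ x y, p.h x y = 0 ∨ p.h x y = 2 ∨ p.h x y = 4
  v3 : ∀ x y, p.v x y = 0 ∨ p.v x y = 2 ∨ p.v x y = 4
  boxh : ∀ x y, p.h x y = 0 → 1 ≤ x ∧ x ≤ p.K0 ∧ 1 ≤ y ∧ y < 6 * p.rows + 4
  boxv : ∀ x y, p.v x y = 0 → 1 ≤ x ∧ x ≤ p.K0 + 1 ∧ 1 ≤ y ∧ y < 6 * p.rows + 3
  box : ∀ x y, p.fd x y ≠ 0 → 1 ≤ x ∧ x ≤ p.K0 + 1 ∧ 1 ≤ y ∧ y < 6 * p.rows + 4
  hubE : ∀ x y, p.hub x y = true →
    p.h x y = 0 ∧ p.h (x - 1) y = 0 ∧ p.v x y = 0 ∧ p.v x (y - 1) = 0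
  /-- at most two forced edges, except at the hubs -/
  two : ∀ x y, p.hub x y = false → p.fd x y ≤ 2
  one : ∀ x y, p.fd x y = 1 → x < p.K0
  oh : ∀ x y, p.h x y = 2 → 3 ≤ x ∧ x + 1 < p.K0 ∧ 2 ≤ y ∧ p.fd x y = 1 ∧ p.fd (x + 1) y = 1
  ov : ∀ x y, p.v x y = 2 → 3 ≤ x ∧ x < p.K0 ∧ 2 ≤ y ∧ p.fd x y = 1 ∧ p.fd x (y + 1) = 1
  ohr : ∀ x y, p.h x y = 2 → (x = 3 ∧ lring x y = true ∧ lring (x + 1) y = true) ∨
    (4 < x ∧ lring x y = false ∧ lring (x + 1) y = false ∧ (y = 2 ∨ y % 2 = 1))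
  ovr : ∀ x y, p.v x y = 2 → (x ≤ 4 ∧ lring x y = true ∧ lring x (y + 1) = true) ∨
    (4 < x ∧ lring x y = false ∧ lring x (y + 1) = false)
  adh : ∀ x y, p.fd x y = 1 → p.fd (x + 1) y = 1 → p.h x y = 2 ∨
    (4 ≤ y ∧ y % 2 = 0 ∧ lring x y = false ∧ lring (x + 1) y = false)
  adv : ∀ x y, p.fd x y = 1 → p.fd x (y + 1) = 1 → p.v x y = 2
  /-- the graph between the columns `K0` and `K0 + 1` -/
  k0h : ∀ y, p.h p.K0 y = 0 ↔ (y = 3 ∨ ∃ i < p.rows, y = 7 + 6 * i)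
  k0v : ∀ y, p.v p.K0 y = 0 ↔ ∃ i < p.rows, y = 5 + 6 * i ∨ y = 6 + 6 * i ∨ y = 7 + 6 * i ∨
    y = 8 + 6 * i
  k0l : ∀ y, p.h (p.K0 - 1) y = 0 ↔ (y = 3 ∨ ∃ i < p.rows, y = 5 + 6 * i ∨ y = 7 + 6 * i ∨
    y = 9 + 6 * i)
  hubI : ∀ x y, p.hub x y = true ↔ x = p.K0 ∧ ∃ i < p.rows, y = 7 + 6 * i

/-- (NF) -/
def specNF : Prop := ∀ (p : Par) (W : ℕ), p.Ok W → p.NF

/-! ### the vertices and the forced neighbours -/

/-- (VM) the list of vertices -/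
structure Par.VM (p : Par) : Prop where
  nodup : p.V.Nodup
  lat : ∀ x y, lat x y ∈ p.V ↔ p.fd x y ≠ 0 ∧ p.hub x y = false
  hm : ∀ x y, hm x y ∈ p.V ↔ p.h x y = 0
  vm : ∀ x y, vm x y ∈ p.V ↔ p.v x y = 0
  ring : ∀ i c, ring i c ∈ p.V ↔ i < p.rows ∧ c < 4
  coin : ∀ i c k, coin i c k ∈ p.V ↔ i < p.rows ∧ c < 4 ∧ k < p.e + 3 ∧ p.cn i c k = true
  form : ∀ a ∈ p.V, (∃ x y, a = ES.lat x y) ∨ (∃ x y, a = ES.hm x y) ∨ (∃ x y, a = ES.vm x y) ∨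
    (∃ i c, a = ES.ring i c) ∨ ∃ i c k, a = ES.coin i c k

def specVM : Prop := ∀ (p : Par) (W : ℕ), p.Ok W → p.NF → p.VM

/-- number of the first disc of an arm: the largest `k` with `6 * 2 ^ k ≤ 5 * r2` -/
def Par.fk (p : Par) (i c : ℕ) : ℕ := Nat.log 2 (5 * p.r2 i c / 6)

/-- (FK) the discs of an arm -/
structure Par.FK (p : Par) : Prop where
  pos : ∀ i < p.rows, ∀ c < 4, 6 ≤ 5 * p.r2 i c
  lt : ∀ i < p.rows, ∀ c < 4, p.fk i c < p.e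
  cn : ∀ i < p.rows, ∀ c < 4, ∀ k, p.cn i c k = true ↔ p.fk i c ≤ k
  fst : ∀ i < p.rows, ∀ c < 4, ∀ k, p.fst' i c k = true ↔ k ≤ p.fk i c

def specFK : Prop := ∀ (p : Par) (W : ℕ), p.Ok W → p.FK

/-- the midpoint behind the last disc of an arm -/
def Par.mid (p : Par) (i c : ℕ) : Vx :=
  if c = 0 then vm p.K0 (6 + 6 * i) else if c = 1 then hm (p.K0 - 1) (7 + 6 * i)
  else if c = 2 then vm p.K0 (7 + 6 * i) else hm p.K0 (7 + 6 * i)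

/-- (FN) the forced neighbours -/
structure Par.FN (p : Par) : Prop where
  nodup : p.FL.Nodup
  anti : ∀ a b, (a, b) ∈ p.FL → (b, a) ∉ p.FL
  memV : ∀ a b, (a, b) ∈ p.FL → a ∈ p.V ∧ b ∈ p.V ∧ a ≠ b
  lat : ∀ x y b, p.hub x y = false → (p.F (ES.lat x y) b ↔
    (p.h x y = 0 ∧ b = ES.hm x y) ∨ (0 < x ∧ p.h (x - 1) y = 0 ∧ b = ES.hm (x - 1) y) ∨
    (p.v x y = 0 ∧ b = ES.vm x y) ∨ (0 < y ∧ p.v x (y - 1) = 0 ∧ b = ES.vm x (y - 1)))
  hm : ∀ x y b, p.F (ES.hm x y) b ↔ p.h x y = 0 ∧ (b = p.st x y 3 ∨ b = p.st (x + 1) y 1)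
  vm : ∀ x y b, p.F (ES.vm x y) b ↔ p.v x y = 0 ∧ (b = p.st x y 2 ∨ b = p.st x (y + 1) 0)
  ring : ∀ i < p.rows, ∀ c < 4, ∀ b, p.F (ES.ring i c) b ↔ b = ES.coin i c (p.fk i c)
  coin : ∀ i < p.rows, ∀ c < 4, ∀ k, p.fk i c ≤ k → k < p.e + 3 → ∀ b,
    (p.F (ES.coin i c k) b ↔
      b = (if k = p.fk i c then ES.ring i c else ES.coin i c (k - 1)) ∨
      b = (if k = p.e + 2 then p.mid i c else ES.coin i c (k + 1)))

def specFN : Prop := ∀ (p : Par) (W : ℕ), p.Ok W → p.NF → p.VM → p.FK → p.FN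

/-! ### the metric -/

/-- Euclidean distance between two vertices of the drawing -/
noncomputable def Par.dst (p : Par) (a b : Vx) : ℝ := ETSP.edist (p.pos a) (p.pos b)

/-- the drawing as a net -/
noncomputable def Par.net (p : Par) (W : ℕ) : Net Vx :=
  ⟨p.V, p.FL, p.O, p.dst, p.rad, W + 1⟩

/-- (GC) combinatorial conditions -/
def specGC : Prop := ∀ (p : Par) (W : ℕ), p.Ok W → p.NF → p.VM → p.FK → p.FN → (p.net W).GoodC

/-- the pair `a`, `b` is far apart -/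
def Par.Far (p : Par) (W : ℕ) (a b : Vx) : Prop :=
  p.rad a + p.rad b + (W + 1) ≤ p.dst a b

/-- (S1) two lattice sites -/
def specS1 : Prop := ∀ (p : Par) (W : ℕ), p.Ok W → p.NF → ∀ x y x' y',
  p.fd x y ≠ 0 → p.hub x y = false → p.fd x' y' ≠ 0 → p.hub x' y' = false →
  (x, y) ≠ (x', y') → ¬ p.O (lat x y) (lat x' y') → p.Far W (lat x y) (lat x' y')

/-- (S2) a lattice site and a midpoint -/
def specS2 : Prop := ∀ (p : Par) (W : ℕ), p.Ok W → p.NF → ∀ x y x' y',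
  p.fd x y ≠ 0 → p.hub x y = false →
  (p.h x' y' = 0 → (x, y) ≠ (x', y') → (x, y) ≠ (x' + 1, y') → p.Far W (lat x y) (hm x' y')) ∧
  (p.v x' y' = 0 → (x, y) ≠ (x', y') → (x, y) ≠ (x', y' + 1) → p.Far W (lat x y) (vm x' y'))

/-- (S3) two midpoints -/
def specS3 : Prop := ∀ (p : Par) (W : ℕ), p.Ok W → p.NF → ∀ x y x' y',
  (p.h x y = 0 → p.h x' y' = 0 → (x, y) ≠ (x', y') → p.Far W (hm x y) (hm x' y')) ∧
  (p.v x y = 0 → p.v x' y' = 0 → (x, y) ≠ (x', y') → p.Far W (vm x y) (vm x' y')) ∧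
  (p.h x y = 0 → p.v x' y' = 0 → p.Far W (hm x y) (vm x' y'))

/-- (S4) one arm -/
def specS4 : Prop := ∀ (p : Par) (W : ℕ), p.Ok W → p.FK → ∀ i < p.rows, ∀ c < 4, ∀ k,
  p.fk i c ≤ k → k < p.e + 3 →
  (p.fk i c < k → p.Far W (ring i c) (coin i c k)) ∧
  (∀ k', k + 1 < k' → k' < p.e + 3 → p.Far W (coin i c k) (coin i c k'))

/-- (S5) the diagonals of a ring, and a vertex of a ring against the other arms -/
def specS5 : Prop := ∀ (p : Par) (W : ℕ), p.Ok W → p.FK → ∀ i < p.rows,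
  p.Far W (ring i 0) (ring i 2) ∧ p.Far W (ring i 1) (ring i 3) ∧
  ∀ c < 4, ∀ c' < 4, c ≠ c' → ∀ k, p.fk i c' ≤ k → k < p.e + 3 →
    p.Far W (ring i c) (coin i c' k)

/-- (S6) discs on different arms -/
def specS6 : Prop := ∀ (p : Par) (W : ℕ), p.Ok W → p.FK → ∀ i < p.rows,
  ∀ c < 4, ∀ c' < 4, c ≠ c' → ∀ k k', p.fk i c ≤ k → k < p.e + 3 → p.fk i c' ≤ k' →
    k' < p.e + 3 → p.Far W (coin i c k) (coin i c' k')

/-- a vertex of a ring or of an arm -/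
def Par.Arm (p : Par) (a : Vx) (i c : ℕ) : Prop := i < p.rows ∧ c < 4 ∧
  (a = ring i c ∨ ∃ k, p.fk i c ≤ k ∧ k < p.e + 3 ∧ a = coin i c k)

/-- (S7) different rows -/
def specS7 : Prop := ∀ (p : Par) (W : ℕ), p.Ok W → p.FK → ∀ a b i c j d, p.Arm a i c →
  p.Arm b j d → i ≠ j → p.Far W a b

/-- (S8) arms against the lattice -/
def specS8 : Prop := ∀ (p : Par) (W : ℕ), p.Ok W → p.NF → p.FK → ∀ a i c, p.Arm a i c →
  (∀ x y, p.fd x y ≠ 0 → p.hub x y = false → p.Far W a (lat x y)) ∧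
  (∀ x y, p.h x y = 0 → ¬ (a = coin i c (p.e + 2) ∧ hm x y = p.mid i c) → p.Far W a (hm x y)) ∧
  (∀ x y, p.v x y = 0 → ¬ (a = coin i c (p.e + 2) ∧ vm x y = p.mid i c) → p.Far W a (vm x y))

/-- (LF) the forced pairs: exact lengths, and overlapping discs -/
def specLF : Prop := ∀ (p : Par) (W : ℕ), p.Ok W → p.NF → p.VM → p.FK → p.FN → ∀ a b, p.F a b →
  p.dst a b = p.l1 a b ∧ 0 < p.l1 a b ∧ p.dst a b ≤ p.rad a + p.rad b

/-- (LO) the optional pairs -/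
def specLO : Prop := ∀ (p : Par) (W : ℕ), p.Ok W → p.NF →
  (∀ x y, p.h x y = 2 →
    p.dst (lat x y) (lat (x + 1) y) = p.rad (lat x y) + p.rad (lat (x + 1) y)) ∧
  (∀ x y, p.v x y = 2 →
    p.dst (lat x y) (lat x (y + 1)) = p.rad (lat x y) + p.rad (lat x (y + 1))) ∧
  (∀ i < p.rows,
    p.dst (ring i 0) (ring i 1) = p.rad (ring i 0) + p.rad (ring i 1) ∧
    p.dst (ring i 2) (ring i 3) = p.rad (ring i 2) + p.rad (ring i 3) ∧
    p.dst (ring i 3) (ring i 0) = p.rad (ring i 3) + p.rad (ring i 0) ∧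
    p.dst (ring i 1) (ring i 2) = p.rad (ring i 1) + p.rad (ring i 2) + p.om i ∧
    0 ≤ p.om i)

/-- (GM) metric conditions -/
def specGM : Prop := ∀ (p : Par) (W : ℕ), p.Ok W → p.NF → p.VM → p.FK → p.FN → (p.net W).GoodM

/-- (LA) the exact length -/
def specLA : Prop := ∀ (p : Par) (W : ℕ), p.Ok W → p.NF → p.VM → p.FK → p.FN →
  (p.net W).Lam = p.Lam

/-- (IJ) different vertices have different positions -/
def specIJ : Prop := ∀ (p : Par) (W : ℕ), p.Ok W → p.NF → p.VM → p.FK → p.FN →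
  (p.V.map p.pos).Nodup

/-! ### transfer between the formula graph and the drawing -/

/-- (TR1) -/
def specTR1 : Prop := ∀ (p : Par) (W : ℕ) (E : Vx → Vx → Prop), p.Ok W → p.NF → p.VM → p.FK →
  p.FN → Ham (fun a => a ∈ p.V) E → (∀ a b, p.F a b → E a b) →
  (∀ a b, E a b → p.F a b ∨ p.O a b) →
  ∃ hU vU, Use (hC p.s p.M) (vC p.s p.M) hU vU ∧
    ∀ i < p.rows, (vU p.K0 (7 + 6 * i) = true ↔ E (ring i 1) (ring i 2))

/-- (TR2) -/
def specTR2 : Prop := ∀ (p : Par) (W : ℕ) (hU vU : ℕ → ℕ → Bool), p.Ok W → p.NF → p.VM → p.FK →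
  p.FN → Use (hC p.s p.M) (vC p.s p.M) hU vU →
  ∃ E : Vx → Vx → Prop, Ham (fun a => a ∈ p.V) E ∧ (∀ a b, p.F a b → E a b) ∧
    (∀ a b, E a b → p.F a b ∨ p.O a b) ∧
    ∀ i < p.rows, (vU p.K0 (7 + 6 * i) = true ↔ E (ring i 1) (ring i 2))

/-! ### the instance -/

open Classical in
/-- (G) the instance of the drawing is a yes-instance if and only if the formula has a satisfying
assignment of total excess at most `W` -/
def specG : Prop := ∀ (p : Par) (W : ℕ) (φ : CNF) (I : Instance), p.Ok W → p.s = subs φ →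
  (∀ c ∈ φ, ∀ l ∈ c, l.1 < p.rows) → List.ofFn I.pt = p.V.map p.pos → I.bound = p.Lam + W →
  (I.Yes ↔ ∃ a : ℕ → Bool, φ.Sat a ∧
    ∑ i ∈ Finset.range p.rows, (if a i = true then p.om i else 0) ≤ W)

end Pool.Agent.Helper52.ES
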